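import Pool.Agent.Work.MP_8f87b2_h68.D2
import Pool.Agent.Work.MP_8f87b2_h40.JG

/-!
# MP_8f87b2_co, matrix entry I-JM-JM

`IS`: shape of (the mirrors of) the inner words of a gadget of type JM. `JS`: shape of all words `jX`. They are disjoint.
`TyJM.innIS`, `TyJM.inner_JM`.
-/

set_option autoImplicit false

namespace Pool.OddHC

open Finset Equiv BinaryTree Pool.Agent.Work.MP_8f87b2_co

namespace SRun

open H1 J

theorem SR.mk' {w u r u' : List Bool} {c d z : Bool} (e : w = u ++ c :: d :: r) (h : D2 u)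
    (hu : u = u' ++ [z]) (hz : z ≠ c) (hn : c ≠ d) : SR w u c d r :=
  ⟨e, h, by rw [hu, List.getLastD_concat]; exact hz, hn⟩

theorem SR.mk0 {w r : List Bool} (e : w = true :: false :: r) : SR w [] true false r :=
  ⟨e, D2.nil, by simp, by simp⟩

/-- shape of the inner words -/
def IS (y : List Bool) : Prop :=
  (∃ u l, SR y u false true l ∧ 3 ≤ u.length) ∨
    ∃ u x l, SR y u true false (false :: x :: l) ∧ u ≠ []

/-- shape of the words of the gadgets -/
def JS (w : List Bool) : Prop :=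
  D2 w ∨ (∃ l, SR w [] true false l) ∨ (∃ l, SR w [true, true] false true l) ∨
    ∃ u l, SR w u true false l ∧ (l = [] ∨ l = [false] ∨ ∃ m, l = true :: m)

theorem IS.not_JS {y : List Bool} (h : IS y) (h' : JS y) : False := by
  rcases h with ⟨u, l, h1, h2⟩ | ⟨u, x, l, h1, h2⟩ <;>
    rcases h' with h3 | ⟨l', h3⟩ | ⟨l', h3⟩ | ⟨u', l', h3, h4⟩
  · exact h1.not_D2 h3
  · exact absurd (h1.uniq h3).2.1 (by simp)
  · have := (h1.uniq h3).1
    rw [this] at h2
    simp at h2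
  · exact absurd (h1.uniq h3).2.1 (by simp)
  · exact h1.not_D2 h3
  · exact h2 (h1.uniq h3).1
  · exact absurd (h1.uniq h3).2.1 (by simp)
  · have e := (h1.uniq h3).2.2.2
    rw [← e] at h4
    simp at h4

/-- a nonempty tree without 1-parts -/
structure Gd (t : BinaryTree Unit) : Prop where
  hg : H1.hg 2 t
  ne : t ≠ .nil

theorem hg_app {P Q : BinaryTree Unit} (hP : hg 2 P) (hQ : hg 2 Q) : hg 2 (app P Q) := by
  induction P with
  | nil => exact hQ
  | node _ A C _ ih => exact ⟨hP.1, ih hP.2⟩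

theorem Gd.d2 {t : BinaryTree Unit} (h : Gd t) : D2 (wd t) := D2_hg h.hg

theorem Gd.start {t : BinaryTree Unit} (h : Gd t) : ∃ v, wd t = true :: true :: v := by
  obtain ⟨v, hv⟩ := hg_start (by norm_num) h.hg h.ne
  exact ⟨v, hv⟩

theorem Gd.stop {t : BinaryTree Unit} (h : Gd t) : ∃ v, wd t = (v ++ [false]) ++ [false] := by
  obtain ⟨v, hv⟩ := hg_end (by norm_num) h.hg h.ne
  exact ⟨v, by rw [hv]; simp [List.replicate]⟩

theorem Gd.cons {t : BinaryTree Unit} (h : Gd t) : D2 (true :: wd t) := by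
  obtain ⟨v, hv⟩ := h.start
  have h1 := h.d2
  rw [hv] at h1 ⊢
  exact h1.cons

theorem Gd.node {A C : BinaryTree Unit} (hA : Gd A) (hC : H1.hg 2 C) : Gd (A △ C) :=
  ⟨⟨Or.inr ⟨hA.ne, hA.hg⟩, hC⟩, by simp⟩

theorem Gd.app {A C : BinaryTree Unit} (hA : Gd A) (hC : H1.hg 2 C) : Gd (app A C) := by
  refine ⟨hg_app hA.hg hC, ?_⟩
  have h1 := hA.ne
  cases A with
  | nil => exact absurd rfl h1
  | node _ _ _ => simp [OddHC.app]

theorem hg_one {X : BinaryTree Unit} (h : hg 2 X) : hg 2 ((.nil △ .nil) △ X) := ⟨Or.inl rfl, h⟩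

theorem hg_b2 (t : ℕ) : hg 2 (b2 t) := by
  induction t with
  | zero => trivial
  | succ t ih => exact hg_one ih

theorem Gd_b2 {t : ℕ} (h : 1 ≤ t) : Gd (b2 t) := by
  obtain ⟨t, rfl⟩ : ∃ s, t = s + 1 := ⟨t - 1, by omega⟩
  refine ⟨hg_b2 _, ?_⟩
  intro e
  cases e

/-- pure words -/
theorem JS_pw {R : BinaryTree Unit} (h : Gd R) {i : ℕ} (hi : i < 10) : JS (wd (J.pw R i)) := by
  obtain ⟨v, hv⟩ := h.stop
  obtain ⟨v', hv'⟩ := h.start
  interval_cases i
  · exact Or.inl (D2_hg (hg_app h.hg (hg_one trivial)))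
  · refine Or.inr (Or.inr (Or.inr ⟨wd R, [true, false], SR.mk' ?_ h.d2 hv (by simp) (by simp),
      Or.inr (Or.inr ⟨_, rfl⟩)⟩))
    change wd (app R (.nil △ (.nil △ .nil))) = _
    rw [wd_app]; rfl
  · exact Or.inr (Or.inl ⟨_, SR.mk0 rfl⟩)
  · refine Or.inr (Or.inr (Or.inr ⟨true :: wd R, [false], SR.mk' (u' := true :: (v ++ [false])) ?_
      h.cons (by rw [hv]; simp) (z := false) (by simp) (by simp), Or.inr (Or.inl rfl)⟩))
    change wd (app R (.nil △ .nil) △ .nil) = _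
    rw [wd_node, wd_app]
    simp [wd]
  · exact Or.inl (D2_hg (hg_one h.hg))
  · exact Or.inr (Or.inl ⟨_, SR.mk0 rfl⟩)
  · have h1 : Gd (R △ .nil) := h.node trivial
    obtain ⟨v1, hv1⟩ := h1.stop
    refine Or.inr (Or.inr (Or.inr ⟨wd (R △ .nil), [], SR.mk' ?_ h1.d2 hv1 (by simp) (by simp),
      Or.inl rfl⟩))
    change wd (R △ (.nil △ .nil)) = _
    rw [wd_node, wd_node]
    simp [wd]
  · refine Or.inr (Or.inr (Or.inl ⟨true :: (v' ++ [false]), ?_, D2.two _ _ D2.nil, by simp, by simp⟩))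
    change wd ((.nil △ R) △ .nil) = _
    rw [wd_node, wd_node, hv']
    simp [wd]
  · exact Or.inr (Or.inl ⟨_, SR.mk0 rfl⟩)
  · exact Or.inl ((h.node (C := .nil) trivial).node (C := .nil) trivial).d2

/-- mixed words -/
theorem JS_mw {t u : ℕ} {D : BinaryTree Unit} (ht : 1 ≤ t) (hS : Gd (RR 0 D u)) {i : ℕ}
    (h1 : 10 ≤ i) (h2 : i < 20) : JS (wd (mw t D u i)) := by
  have hB : Gd (b2 t) := Gd_b2 ht
  obtain ⟨vB, hvB⟩ := hB.stop
  obtain ⟨vS, hvS⟩ := hS.start
  unfold mw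
  generalize RR 0 D u = S at hS hvS ⊢
  generalize b2 t = B at hB hvB ⊢
  interval_cases i
  · exact Or.inl (D2_hg (hg_app hB.hg (hg_one hS.hg)))
  · refine Or.inr (Or.inr (Or.inr ⟨wd B, true :: (false :: wd S), SR.mk' ?_ hB.d2 hvB (by simp)
      (by simp), Or.inr (Or.inr ⟨_, rfl⟩)⟩))
    change wd (app B (.nil △ (.nil △ S))) = _
    rw [wd_app]; rfl
  · have h3 : Gd (S △ B) := hS.node hB.hg
    obtain ⟨v1, hv1⟩ := h3.stop
    refine Or.inr (Or.inr (Or.inr ⟨wd (S △ B), [], SR.mk' ?_ h3.d2 hv1 (by simp) (by simp),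
      Or.inl rfl⟩))
    change wd (S △ app B (.nil △ .nil)) = _
    rw [wd_node, wd_node, wd_app]
    simp [wd]
  · refine Or.inr (Or.inr (Or.inr ⟨wd S ++ (true :: wd B), [false],
      SR.mk' (u' := wd S ++ (true :: (vB ++ [false]))) ?_ (hS.d2.app hB.cons)
      (by rw [hvB]; simp) (z := false) (by simp) (by simp), Or.inr (Or.inl rfl)⟩))
    change wd (app S (app B (.nil △ .nil) △ .nil)) = _
    rw [wd_app, wd_node, wd_app]
    simp [wd]
  · refine Or.inr (Or.inr (Or.inl ⟨true :: (vS ++ false :: wd B), ?_, D2.two _ _ D2.nil, by simp,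
      by simp⟩))
    change wd ((.nil △ S) △ B) = _
    rw [wd_node, wd_node, hvS]
    simp [wd]
  · exact Or.inr (Or.inl ⟨_, SR.mk0 rfl⟩)
  · have h3 : Gd (app S (B △ .nil)) := hS.app (hB.node (C := .nil) trivial).hg
    obtain ⟨v1, hv1⟩ := h3.stop
    refine Or.inr (Or.inr (Or.inr ⟨wd (app S (B △ .nil)), [], SR.mk' ?_ h3.d2 hv1 (by simp)
      (by simp), Or.inl rfl⟩))
    change wd (app S (B △ (.nil △ .nil))) = _
    rw [wd_app, wd_app, wd_node, wd_node]
    simp [wd]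
  · exact Or.inl ((hS.node hB.hg).node (C := .nil) trivial).d2
  · exact Or.inr (Or.inl ⟨_, SR.mk0 rfl⟩)
  · exact Or.inl ((hS.app (hB.node (C := .nil) trivial).hg).node (C := .nil) trivial).d2

/-- before and after the first maximum -/
theorem Gd.fm {R : BinaryTree Unit} (h : Gd R) (h3 : 3 ≤ Tsq.ht R) : ∃ a b, H1.FM R a b ∧
    D2 (b.map not) ∧ (∃ β, b.map not = β ++ [true]) ∧ 3 ≤ (b.map not).length ∧
    ∃ x l, a.map not = false :: x :: l := by
  obtain ⟨a, b, ⟨fm, _, dn⟩⟩ := hg_FMT (by norm_num) h.hg (by omega : 2 < Tsq.ht R)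
  have cR := wd_counts R
  have e := fm.eq
  have htop := fm.top
  have c1 := cR.1
  have c2 := cR.2
  rw [e] at c1 c2
  simp only [List.count_append, List.count_cons] at c1 c2
  simp at c1 c2
  have hlb : b.count false ≤ b.length := List.count_le_length
  have hla : a.count true ≤ a.length := List.count_le_length
  obtain ⟨b', hb'⟩ : ∃ b', b = false :: b' := by
    rcases dn with ⟨r, hr⟩ | ⟨r, hr⟩
    · exact ⟨_, hr⟩
    · exact ⟨_, hr⟩
  have hD := h.d2
  rw [e, hb'] at hD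
  have hb2 : D2 b := by
    rw [hb']
    exact (hD.cut (by simp) rfl).2
  obtain ⟨v, hv⟩ := h.stop
  have hbl : ∃ β, b = β ++ [false] := by
    rcases List.eq_nil_or_concat b with h4 | ⟨β, z, h4⟩
    · rw [h4] at hb'
      exact absurd hb' (by simp)
    · refine ⟨β, ?_⟩
      rw [List.concat_eq_append] at h4
      rw [hv, h4] at e
      have e2 : (v ++ [false]) ++ [false] = (a ++ true :: β) ++ [z] := by
        rw [e]; simp
      have e3 := (List.append_inj' e2 rfl).2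
      rw [List.cons.injEq] at e3
      rw [h4, ← e3.1]
  obtain ⟨v', hv'⟩ := h.start
  refine ⟨a, b, fm, hb2.mapnot, ?_, ?_, ?_⟩
  · obtain ⟨β, hβ⟩ := hbl
    exact ⟨β.map not, by rw [hβ]; simp⟩
  · rw [List.length_map]
    omega
  · rcases a with _ | ⟨y, _ | ⟨z, a⟩⟩
    · simp at htop
      omega
    · simp only [List.length_cons, List.length_nil] at hla
      have : (if y = true then 1 else 0) ≤ 1 := by split <;> omega
      simp at htop hla
      omega
    · rw [hv'] at e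
      simp only [List.cons_append, List.cons.injEq] at e
      exact ⟨!z, a.map not, by rw [← e.1]; simp⟩

/-- the four inner words -/
theorem inner_IS {k : ℕ} {R B S : BinaryTree Unit} (h : Gd R) (h3 : 3 ≤ Tsq.ht R) {x : X k} :
    ∀ i ∈ [1, 3, 6, 8], x.1 = W R .nil B S i → IS (wd (TT x).1) := by
  obtain ⟨a, b, fm, hb, ⟨β, hβ⟩, hl, y, l, hy⟩ := h.fm h3
  have hn : Tsq.ht (.nil : BinaryTree Unit) = 0 := rfl
  intro i hi e
  simp only [List.mem_cons, List.not_mem_nil, or_false] at hi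
  rcases hi with rfl | rfl | rfl | rfl
  · have k1 := fm.app_right (Z := .nil △ (.nil △ .nil)) (by
      rw [Tsq.ht_node, Tsq.ht_node, hn]; omega)
    have e' : x.1 = app R (.nil △ (.nil △ .nil)) := e
    rw [← e'] at k1
    refine Or.inl ⟨b.map not, false :: true :: false :: a.map not, SR.mk' ?_ hb hβ (by simp)
      (by simp), hl⟩
    rw [k1.wdT]
    simp [wd]
  · have k1 := (fm.app_right (Z := .nil △ .nil) (by
      rw [Tsq.ht_node, hn]; omega)).node (Z := .nil) (by rw [hn]; omega)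
    have e' : x.1 = (app R (.nil △ .nil) △ .nil) := e
    rw [← e'] at k1
    refine Or.inl ⟨b.map not, true :: false :: false :: a.map not, SR.mk' ?_ hb hβ (by simp)
      (by simp), hl⟩
    rw [k1.wdT]
    simp [wd]
  · have k1 := fm.node (Z := .nil △ .nil) (by rw [Tsq.ht_node, hn]; omega)
    have e' : x.1 = R △ (.nil △ .nil) := e
    rw [← e'] at k1
    refine Or.inl ⟨b.map not ++ [true], false :: false :: a.map not, SR.mk' ?_ (hb.snoc hβ) rfl
      (by simp) (by simp), by simp; simp at hl; omega⟩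
    rw [k1.wdT]
    simp [wd]
  · have k1 := (fm.node (Z := .nil) (by rw [hn]; omega)).app_left (P := .nil △ .nil) (by
      rw [Tsq.ht_node, Tsq.ht_node, hn]; omega)
    have e' : x.1 = app (.nil △ .nil) (R △ .nil) := e
    rw [← e'] at k1
    refine Or.inr ⟨b.map not ++ [true] ++ [false, false], y, l, SR.mk' (u' := b.map not ++ [true] ++
      [false]) (z := false) ?_ ((hb.snoc hβ).app (D2.two _ _ D2.nil)) (by simp) (by simp) (by simp),
      by simp⟩
    rw [k1.wdT, ← hy]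
    simp [wd]

end SRun

open SRun J

variable {k : ℕ} {F F' : Set (Cyc k)} {g g' : DG k}

theorem J.Sh.gdR {p t u : ℕ} {D D' : BinaryTree Unit} (h : Sh k p D t D' u) : Gd (RR p D t) := by
  refine ⟨H1.hg_of_cont le_rfl ?_, RR_ne p D t⟩
  intro x hx
  have h1 := cont_pos _ x hx
  have h2 : x ≠ 1 := by
    rintro rfl
    exact (Multiset.count_eq_zero.1 h.one) hx
  omega

theorem J.Sh.gdS {p t u : ℕ} {D D' : BinaryTree Unit} (h : Sh k p D t D' u) : Gd (RR 0 D' u) := by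
  refine ⟨H1.hg_of_cont le_rfl ?_, RR_ne 0 D' u⟩
  intro x hx
  have h1 := cont_pos _ x hx
  have h2 : x ≠ 1 := by
    rintro rfl
    refine (Multiset.count_eq_zero.1 h.one) ?_
    rw [← h.cont]
    exact Multiset.mem_add.2 (Or.inr hx)
  omega

theorem J.Sh.htR {p t u : ℕ} {D D' : BinaryTree Unit} (h : Sh k p D t D' u) :
    3 ≤ Tsq.ht (RR p D t) := by
  rw [H1.ht_eq, ht_RR h.gD]
  have := h.gD.ht
  omega

/-- the shape of all words -/
theorem J.Sh.js {p t u : ℕ} {D D' : BinaryTree Unit} (h : Sh k p D t D' u) (w0 : X k) {n : ℕ}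
    (hn : n < 20) : JS (wd (jX p D t D' u w0 n).1) := by
  rcases lt_or_ge n 10 with h1 | h1
  · rw [h.word_lo w0 h1]
    exact JS_pw h.gdR h1
  · rw [h.word_hi w0 h1 hn]
    rcases Nat.eq_zero_or_pos t with ht | ht
    · subst ht
      rw [mw_zero D' u h1 hn]
      exact JS_pw h.gdS (ixp_lt n)
    · exact JS_mw ht h.gdS h1 hn

/-- **the mirror images of the inner words of a gadget of type JM** -/
theorem TyJM.innIS (h : TyJM F g) : ∀ p ∈ g.arcs, ∀ w ∈ innA p, IS (wd (Tsq.mirX w).1) := by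
  obtain ⟨p, D, t, D', u, w0, h1, hp, rfl, rfl⟩ := h
  intro q hq w hw
  have key : ∀ i j, (i, j) ∈ [(0, 10), (1, 11), (3, 12), (6, 15), (8, 14), (9, 17)] →
      i ∈ [1, 3, 6, 8] → q = (jM p D t D' u w0 j, jM p D t D' u w0 i) →
      IS (wd (Tsq.mirX w).1) := by
    rintro i j hij hi rfl
    have hw' : w = TT (jM p D t D' u w0 j) := hw
    have e1 : TT (jM p D t D' u w0 j) = Tsq.mirX (TT (jX p D t D' u w0 i)) := by
      change TT (Tsq.mirX (jX p D t D' u w0 j)) = _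
      rw [← h1.link w0 hij]
      exact Tsq.TT_mir _
    have e2 : Tsq.mirX w = TT (jX p D t D' u w0 i) := by
      rw [hw', e1]
      exact Subtype.ext (Tsq.mir_mir _)
    rw [e2]
    have hi20 : i < 20 := by
      simp only [List.mem_cons, List.not_mem_nil, or_false] at hi
      omega
    exact inner_IS h1.gdR h1.htR i hi (h1.word w0 hi20)
  have hp' : q = (jM p D t D' u w0 11, jM p D t D' u w0 1) ∨
      q = (jM p D t D' u w0 12, jM p D t D' u w0 3) ∨
      q = (jM p D t D' u w0 15, jM p D t D' u w0 6) ∨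
      q = (jM p D t D' u w0 14, jM p D t D' u w0 8) := hq
  rcases hp' with e | e | e | e
  · exact key 1 11 (by simp) (by simp) e
  · exact key 3 12 (by simp) (by simp) e
  · exact key 6 15 (by simp) (by simp) e
  · exact key 8 14 (by simp) (by simp) e

/-- **I-JM-JM**: the inner words of a gadget of type JM are not words of gadgets of type JM -/
theorem TyJM.inner_JM (h : TyJM F g) (h' : TyJM F' g') : ∀ p ∈ g.arcs, ∀ w ∈ innA p, w ∉ g'.B := by
  intro q hq w hw hw'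
  have h1 := h.innIS q hq w hw
  obtain ⟨p, D, t, D', u, w0, h2, _, rfl, rfl⟩ := h'
  obtain ⟨n, hn, _, e⟩ := mem_gadJM.1 hw'
  have e1 : Tsq.mirX w = jX p D t D' u w0 n := by
    rw [← e]
    exact Subtype.ext (Tsq.mir_mir _)
  rw [e1] at h1
  exact h1.not_JS (h2.js w0 hn)

/-! ### The words of all one soliton gadgets -/

theorem SRun.Gd_RF {n : ℕ} (hn : 1 ≤ n) (G : ZMod (2 * n + 1) → ℕ) : Gd (Ring1.RF n G) := by
  obtain ⟨D, _, e⟩ := RF_shape hn G
  refine ⟨H1.hg_of_cont le_rfl ?_, by rw [e]; exact RR_ne _ D _⟩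
  intro x hx
  rw [Ring1.cont_RF hn, Multiset.mem_add, Multiset.mem_singleton, Multiset.mem_replicate] at hx
  omega

theorem SRun.js_pu {n : ℕ} (hn : 1 ≤ n) {Φ : ZMod (2 * n + 1) → ℕ} {w : BinaryTree Unit}
    (h : IsPu n Φ w) : JS (wd w) ∧ JS (wd (Tsq.mir w)) := by
  obtain ⟨i, hi, _, _, rfl⟩ := h
  refine ⟨JS_pw (Gd_RF hn Φ) hi, ?_⟩
  rw [mir_pw _ hi, mir_RF]
  exact JS_pw (Gd_RF hn _) (mx_lt i)

theorem SRun.js_us {n : ℕ} (hn : 1 ≤ n) {G : ZMod (2 * n + 1) → ℕ} {w : BinaryTree Unit}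
    (h : IsUs n G w) : JS (wd w) ∧ JS (wd (Tsq.mir w)) := by
  obtain ⟨_, rfl⟩ := h
  refine ⟨Or.inl (Gd_RF hn G).d2, ?_⟩
  rw [mir_RF]
  exact Or.inl (Gd_RF hn _).d2

theorem SRun.hg_lv2 {X : BinaryTree Unit} : ∀ t : ℕ, H1.hg 2 (lv2 t X) → H1.hg 2 X
  | 0, h => h
  | t + 1, h => hg_lv2 t h.2

theorem SRun.js_mx {n : ℕ} (hn : 1 ≤ n) {Ψ : ZMod (2 * n + 1) → ℕ} {w : BinaryTree Unit}
    (h : IsMx n Ψ w) : JS (wd (Tsq.mir w)) := by
  obtain ⟨t, D, u, i, ht, hD, e, hi, hi', rfl⟩ := h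
  rw [mir_mir']
  refine JS_mw ht ⟨?_, RR_ne 0 D u⟩ (by omega) hi'
  have h1 : H1.hg 2 (RR t D u) := by
    rw [← e, mir_RF]
    exact (Gd_RF hn _).hg
  exact hg_lv2 t h1

/-- **inner words of JM against all one soliton gadgets** -/
theorem TyJM.inner_J (h : TyJM F g) {n : ℕ} (hn : 1 ≤ n) : ∀ p ∈ g.arcs, ∀ w ∈ innA p,
    (∀ Φ, ¬ IsPu n Φ w.1) ∧ (∀ G, ¬ IsUs n G w.1) ∧ ∀ Ψ, ¬ IsMx n Ψ w.1 := by
  intro p hp w hw
  have h1 := h.innIS p hp w hw
  exact ⟨fun _ h2 => h1.not_JS (js_pu hn h2).2, fun _ h2 => h1.not_JS (js_us hn h2).2,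
    fun _ h2 => h1.not_JS (js_mx hn h2)⟩

theorem TyJM.inner_JG (h : TyJM F g) {n : ℕ} (hn : 1 ≤ n) {B : Finset (X k)}
    {P U M : Set (ZMod (2 * n + 1) → ℕ)} (h' : JG n B P U M) :
    ∀ p ∈ g.arcs, ∀ w ∈ innA p, w ∉ B := by
  intro p hp w hw hB
  have h1 := h.inner_J hn p hp w hw
  rcases h' w hB with ⟨Φ, _, h2⟩ | ⟨G, _, h2⟩ | ⟨Ψ, _, h2⟩
  · exact h1.1 Φ h2
  · exact h1.2.1 G h2
  · exact h1.2.2 Ψ h2

end Pool.OddHC
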