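import Pool.Agent.Work.MP_8f87b2_h68.JS
import Pool.Agent.Work.MP_8f87b2_h6.TyJ3V

/-!
# MP_8f87b2_co: inner words of JM and J3V against all words with `Q = nil`

`NIS.ne`: an inner word (`IS` or the mirror image is `IS`) is not a word with `JS` on both sides.
-/

set_option autoImplicit false

namespace Pool.OddHC

open Finset Equiv BinaryTree Pool.Agent.Work.MP_8f87b2_co

namespace SRun

open H1

variable {k : ℕ}

/-- an inner word of a right or of a mirrored gadget -/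
def NIS (w : X k) : Prop := IS (wd w.1) ∨ IS (wd (Tsq.mirX w).1)

/-- a word of a gadget with `Q = nil` -/
def NJS (w : X k) : Prop := JS (wd w.1) ∧ JS (wd (Tsq.mir w.1))

theorem NIS.not {w : X k} (h : NIS w) (h' : NJS w) : False := by
  rcases h with h | h
  · exact h.not_JS h'.1
  · exact h.not_JS h'.2

theorem NIS.not_mem {w : X k} (h : NIS w) {B : Finset (X k)} (h' : ∀ v ∈ B, NJS v) : w ∉ B :=
  fun hw => h.not (h' w hw)

/-- words of right gadgets -/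
theorem NJS.of_W {R B S : BinaryTree Unit} (hR : R ≠ .nil) (hS : S ≠ .nil)
    (oR : (OddHC.cont R).count 1 = 0) (oB : (OddHC.cont B).count 1 = 0)
    (oS : (OddHC.cont S).count 1 = 0) {i : ℕ} (hi : i < 20) {w : X k}
    (e : w.1 = W R .nil B S i ∨ w.1 = Tsq.mir (W R .nil B S i)) : NJS w := by
  have gR := Gd_of hR oR
  have gS := Gd_of hS oS
  have gB : (B = .nil ∨ Gd B) ∧ (Tsq.mir B = .nil ∨ Gd (Tsq.mir B)) := by
    by_cases e : B = .nil
    · rw [e]; exact ⟨Or.inl rfl, Or.inl rfl⟩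
    · exact ⟨Or.inr (Gd_of e oB).1, Or.inr (Gd_of e oB).2⟩
  have h1 := JS_W gR.1 gB.1 gS.1 hi
  have h2 := JS_mW gR.2 gB.2 gS.2 hi
  unfold NJS
  rcases e with e | e
  · rw [e]; exact ⟨h1, h2⟩
  · rw [e, Tsq.mir_mir]; exact ⟨h2, h1⟩

/-- inner words of right gadgets -/
theorem NIS.of_W {R B S : BinaryTree Unit} (hR : R ≠ .nil) (oR : (OddHC.cont R).count 1 = 0)
    (h3 : 3 ≤ OddHC.ht R) {i : ℕ} (hi : i ∈ [1, 3, 6, 8]) {x : X k} (e : x.1 = W R .nil B S i) :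
    NIS (TT x) := by
  rw [← H1.ht_eq] at h3
  exact Or.inl (inner_IS (Gd_of hR oR).1 h3 i hi e)

/-- inner words of mirrored gadgets: `TT (mir (T² x))` -/
theorem NIS.of_mW {R B S : BinaryTree Unit} (hR : R ≠ .nil) (oR : (OddHC.cont R).count 1 = 0)
    (h3 : 3 ≤ OddHC.ht R) {i : ℕ} (hi : i ∈ [1, 3, 6, 8]) {x y : X k} (e : x.1 = W R .nil B S i)
    (hy : TT (TT x) = y) : NIS (TT (Tsq.mirX y)) := by
  rw [← H1.ht_eq] at h3
  rw [← hy, Tsq.TT_mir]
  right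
  have e2 : Tsq.mirX (Tsq.mirX (TT x)) = TT x := Subtype.ext (Tsq.mir_mir _)
  rw [e2]
  exact inner_IS (Gd_of hR oR).1 h3 i hi e

end SRun

open SRun

variable {k : ℕ} {F F' : Set (Cyc k)} {g g' : DG k}

theorem TyJM.njs (h : TyJM F g) : ∀ w ∈ g.B, NJS w := h.js

theorem TyJM.nis (h : TyJM F g) : ∀ p ∈ g.arcs, ∀ w ∈ innA p, NIS w :=
  fun p hp w hw => Or.inr (h.innIS p hp w hw)

theorem TyJ3V.njs (h : TyJ3V F g) : ∀ w ∈ g.B, NJS w := by
  obtain ⟨R, B, S, h1, h2⟩ := h.words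
  intro w hw
  obtain ⟨i, hi, _, e⟩ := h2 w hw
  exact NJS.of_W h1.ne h1.neS h1.one h1.oneB h1.oneS hi (Or.inl e)

theorem TyJ3V.nis (h : TyJ3V F g) : ∀ p ∈ g.arcs, ∀ w ∈ innA p, NIS w := by
  obtain ⟨R, B, S, w0, h1, _, rfl, rfl⟩ := h
  intro q hq w hw
  have key : ∀ i j : ℕ, i ∈ [1, 3, 6, 8] → q = (J3.sX R B S w0 i, J3.sX R B S w0 j) → NIS w := by
    rintro i j hi rfl
    have hw' : w = TT (J3.sX R B S w0 i) := hw
    rw [hw']
    have hi20 : i < 20 := by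
      simp only [List.mem_cons, List.not_mem_nil, or_false] at hi
      omega
    exact NIS.of_W h1.ne h1.one h1.h3 hi (h1.word w0 hi20)
  have hp' : q = (J3.sX R B S w0 3, J3.sX R B S w0 12) ∨ q = (J3.sX R B S w0 6, J3.sX R B S w0 15) ∨
      q = (J3.sX R B S w0 8, J3.sX R B S w0 14) := hq
  rcases hp' with e | e | e
  · exact key 3 12 (by simp) e
  · exact key 6 15 (by simp) e
  · exact key 8 14 (by simp) e

/-- **I-JM-J3V** -/
theorem TyJM.inner_J3V (h : TyJM F g) (h' : TyJ3V F' g') : ∀ p ∈ g.arcs, ∀ w ∈ innA p, w ∉ g'.B :=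
  fun p hp w hw => (h.nis p hp w hw).not_mem h'.njs

/-- **I-J3V-JM** -/
theorem TyJ3V.inner_JM (h : TyJ3V F g) (h' : TyJM F' g') : ∀ p ∈ g.arcs, ∀ w ∈ innA p, w ∉ g'.B :=
  fun p hp w hw => (h.nis p hp w hw).not_mem h'.njs

/-- **I-J3V-J3V** -/
theorem TyJ3V.inner_J3V (h : TyJ3V F g) (h' : TyJ3V F' g') : ∀ p ∈ g.arcs, ∀ w ∈ innA p, w ∉ g'.B :=
  fun p hp w hw => (h.nis p hp w hw).not_mem h'.njs

/-- the words of the gadgets of one soliton classes -/
theorem JG_njs {n : ℕ} (hn : 1 ≤ n) {B : Finset (X k)} {P U M : Set (ZMod (2 * n + 1) → ℕ)}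
    (h : J.JG n B P U M) : ∀ w ∈ B, NJS w := by
  intro w hw
  rcases h w hw with ⟨Φ, _, h1⟩ | ⟨G, _, h1⟩ | ⟨Ψ, _, h1⟩
  · exact js_pu hn h1
  · exact js_us hn h1
  · refine ⟨?_, js_mx hn h1⟩
    obtain ⟨t, D, u, i, ht, hD, e, hi, hi', e1⟩ := h1
    have h2 : Gd (J.RR t D u) := by
      rw [← e, J.mir_RF]
      exact Gd_RF hn _
    have h3 : Gd (J.RR 0 D u) := ⟨hg_lv2 t h2.hg, J.RR_ne 0 D u⟩
    have c3 : (OddHC.cont (J.RR 0 D u)).count 1 = 0 := by
      have c4 : OddHC.cont (J.RR t D u) = {n + 2} + Multiset.replicate (∑ x, (J.rf Ψ) x) 2 := by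
        rw [← e, J.mir_RF, Ring1.cont_RF hn]
      have c5 : OddHC.cont (J.RR t D u) = OddHC.cont (J.b2 t) + OddHC.cont (J.RR 0 D u) := by
        rw [← cont_app, J.app_b2]
        rfl
      rw [c4] at c5
      have c6 := congrArg (Multiset.count 1) c5
      rw [Multiset.count_add, Multiset.count_add, Multiset.count_singleton, Multiset.count_replicate] at c6
      rw [if_neg (by omega), if_neg (by omega)] at c6
      omega
    have c2 : (OddHC.cont (J.b2 t)).count 1 = 0 := J.count_b2 t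
    rw [e1]
    have gB := Gd_of (t := J.b2 t) (Gd_b2 ht).ne c2
    exact JS_mW2 (R := .nil) (Or.inr gB.2) (Gd_of (J.RR_ne 0 D u) c3).2 (by omega) hi'

/-- **I-J3V-J3**: against all gadgets of one soliton classes -/
theorem TyJ3V.inner_JG (h : TyJ3V F g) {n : ℕ} (hn : 1 ≤ n) {B : Finset (X k)}
    {P U M : Set (ZMod (2 * n + 1) → ℕ)} (h' : J.JG n B P U M) :
    ∀ p ∈ g.arcs, ∀ w ∈ innA p, w ∉ B :=
  fun p hp w hw => (h.nis p hp w hw).not_mem (JG_njs hn h')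

end Pool.OddHC
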