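import Pool.Agent.Work.MP_8f87b2_h68.JVI
import Pool.Agent.Work.MP_8f87b2_h84.Inn2

/-!
# MP_8f87b2_co: the gadgets J1a in the language of `NJS`, `NIS`

All words of `TyJ1`, `IsJ1`, `IsJ1M` are `NJS`; the inner words of the arcs 1, 3, 6, 8 are `NIS`; the inner word of the arc 9 of
`[s][c]` is `((Y))` with `Y` of content `(s, c)` (`J1A.nine`, `J1MA.nine`): rows I-J3V-J1, I-JM-J1, I-J1-J3V (right and mirrored).
-/

set_option autoImplicit false

namespace Pool.OddHC

open Finset Equiv BinaryTree Pool.Agent.Work.MP_8f87b2_co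

namespace SRun

open H1

variable {k s c : ℕ}

theorem ch_ne {s : ℕ} (hs : 1 ≤ s) : ch s ≠ .nil := by
  obtain ⟨n, rfl⟩ : ∃ n, s = n + 1 := ⟨s - 1, by omega⟩
  intro e
  exact absurd e (by simp [ch])

theorem count_ch {s : ℕ} (hs : 2 ≤ s) : (OddHC.cont (ch s)).count 1 = 0 := by
  obtain ⟨n, rfl⟩ : ∃ n, s = n + 1 := ⟨s - 1, by omega⟩
  rw [ch_cont, Multiset.count_singleton, if_neg (by omega)]

theorem app_ch_ne (hs : 1 ≤ s) (X : BinaryTree Unit) : app (ch s) X ≠ .nil := by
  obtain ⟨n, rfl⟩ : ∃ n, s = n + 1 := ⟨s - 1, by omega⟩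
  intro e
  exact absurd e (by simp [ch, app])

/-- the words of the gadgets J1a over `[s][c]` -/
theorem IsJ1.njs (hs : 2 ≤ s) (hc : 2 ≤ c) {w : X k} (h : J.IsJ1 s c w.1 ∨ J.IsJ1M s c w.1) :
    NJS w := by
  have c1 : (OddHC.cont (app (ch s) (ch c))).count 1 = 0 := by
    rw [cont_app, Multiset.count_add, count_ch hs, count_ch hc]
  rcases h with ⟨i, hi, e⟩ | ⟨i, hi, e⟩
  · exact NJS.of_W (app_ch_ne (by omega) _) (ch_ne (by omega)) c1 (count_ch hc) (count_ch hs) hi
      (Or.inl e)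
  · exact NJS.of_W (app_ch_ne (by omega) _) (ch_ne (by omega)) c1 (count_ch hc) (count_ch hs) hi
      (Or.inr (by rw [← e, Tsq.mir_mir]))

/-- `m` pairs of parentheses around `Y` -/
def prn : ℕ → BinaryTree Unit → BinaryTree Unit
  | 0, Y => Y
  | m + 1, Y => prn m Y △ .nil

theorem wd_prn (m : ℕ) (Y : BinaryTree Unit) :
    wd (prn m Y) = List.replicate m true ++ (wd Y ++ List.replicate m false) := by
  induction m with
  | zero => simp [prn]
  | succ m ih =>
    rw [prn, wd_node, ih, List.replicate_succ, List.replicate_succ' (n := m) (a := false)]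
    simp [wd]

theorem raise_pair {a b : ℕ} (h : a < b) : raise ({a} + {b}) = {a} + {b + 1} := by
  unfold raise
  have h1 : ({a} + {b} : Multiset ℕ).sup = b := by
    rw [sup_add', Multiset.sup_singleton, Multiset.sup_singleton]
    omega
  rw [h1]
  have h2 : ({a} + {b} : Multiset ℕ).erase b = {a} := by
    rw [add_comm, Multiset.singleton_add, Multiset.erase_cons_head]
  rw [h2, ← Multiset.singleton_add, add_comm]

theorem cont_prn {c m : ℕ} (hc : 1 ≤ c) : OddHC.cont (prn m (app (ch c) (ch (c + 2)))) = {c} + {c + 2 + m} ∧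
    OddHC.cont (prn m (app (ch (c + 2)) (ch c))) = {c} + {c + 2 + m} := by
  obtain ⟨n, rfl⟩ : ∃ n, c = n + 1 := ⟨c - 1, by omega⟩
  induction m with
  | zero =>
    refine ⟨?_, ?_⟩
    · change OddHC.cont (app (ch (n + 1)) (ch (n + 2 + 1))) = _
      rw [cont_app, ch_cont, ch_cont]
    · change OddHC.cont (app (ch (n + 2 + 1)) (ch (n + 1))) = _
      rw [cont_app, ch_cont, ch_cont, add_comm]
  | succ m ih =>
    refine ⟨?_, ?_⟩
    · rw [prn, cont_node, cont_nil, add_zero, ih.1, raise_pair (by omega)]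
      rfl
    · rw [prn, cont_node, cont_nil, add_zero, ih.2, raise_pair (by omega)]
      rfl

theorem mir_ch (n : ℕ) : Tsq.mir (ch n) = ch n := by
  induction n with
  | zero => rfl
  | succ n ih =>
    rw [ch, Tsq.mir_node, ih]
    rfl

theorem mir_prn (m : ℕ) (Y : BinaryTree Unit) : Tsq.mir (prn m Y) = prn m (Tsq.mir Y) := by
  induction m with
  | zero => rfl
  | succ m ih =>
    rw [prn, Tsq.mir_node, ih]
    rfl

/-- **the inner word of the arc 9 of `[s][c]`**, `s = m + 2 + c` -/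
theorem TT_nine {m : ℕ} {x : X k}
    (hx : x.1 = (app (ch (m + 2 + c)) (ch c) △ .nil) △ .nil) :
    (TT x).1 = (prn m (app (ch c) (ch (c + 2))) △ .nil) △ .nil := by
  have hn : Tsq.ht (.nil : BinaryTree Unit) = 0 := rfl
  obtain ⟨s, hs⟩ : ∃ s, m + 2 + c = s + 1 := ⟨m + 1 + c, by omega⟩
  rw [hs] at hx
  have k0 := J.FM_ch s
  have k1 := k0.app_right (Z := ch c) (by rw [H1.ht_eq, H1.ht_eq, ch_ht, ch_ht]; omega)
  have k2 := (k1.node (Z := .nil) (by rw [hn]; omega)).node (Z := .nil) (by rw [hn]; omega)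
  rw [← hx] at k2
  have k3 := k2.wdT
  have e : wd ((prn m (app (ch c) (ch (c + 2))) △ .nil) △ .nil : BinaryTree Unit) =
      List.replicate (m + 2) true ++ ((List.replicate c true ++ List.replicate c false ++
        (List.replicate (c + 2) true ++ List.replicate (c + 2) false)) ++
        List.replicate (m + 2) false) := by
    change wd (prn (m + 2) (app (ch c) (ch (c + 2)))) = _
    rw [wd_prn, wd_app, wd_ch, wd_ch]
  have e1 : wd (TT x).1 = wd ((prn m (app (ch c) (ch (c + 2))) △ .nil) △ .nil : BinaryTree Unit) := by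
    rw [k3, e, wd_ch]
    have a1 : List.replicate (s + 1) true = List.replicate (m + 2) true ++ List.replicate c true := by
      rw [← hs, List.replicate_add]
    have a2 : List.replicate (c + 2) false ++ List.replicate (m + 2) false =
        false :: false :: false :: List.replicate s false := by
      rw [← List.replicate_add, show c + 2 + (m + 2) = s + 1 + 1 + 1 by omega, List.replicate_succ,
        List.replicate_succ, List.replicate_succ]
    have a3 : List.replicate (c + 2) true = List.replicate c true ++ [true, true] := by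
      rw [List.replicate_add]; rfl
    have b1 : List.replicate (m + 2) true ++ ((List.replicate c true ++ List.replicate c false ++
        (List.replicate (c + 2) true ++ List.replicate (c + 2) false)) ++
        List.replicate (m + 2) false) = (List.replicate (m + 2) true ++ List.replicate c true) ++
        (List.replicate c false ++ (List.replicate (c + 2) true ++
        (List.replicate (c + 2) false ++ List.replicate (m + 2) false))) := by
      simp only [List.append_assoc]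
    rw [b1, ← a1, a2, a3]
    simp [wd]
  exact (wd_inj _ _ [] [] (by rw [e1])).1

/-- a word `((Y))` in a right gadget with `Q = nil` -/
theorem par2_W {R B S Y : BinaryTree Unit} (hR : R ≠ .nil) (hS : S ≠ .nil) (hY : Y ≠ .nil) {i : ℕ}
    (hi : i < 20) (h9 : i ≠ 9) (e : (Y △ .nil) △ .nil = W R .nil B S i) :
    i = 17 ∧ S = Y ∧ B = .nil := by
  obtain ⟨u, R1, R2, rfl⟩ : ∃ u R1 R2, R = .node u R1 R2 := by
    cases R with
    | nil => exact absurd rfl hR
    | node u A C => exact ⟨u, A, C, rfl⟩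
  obtain ⟨v, S1, S2, rfl⟩ : ∃ u S1 S2, S = .node u S1 S2 := by
    cases S with
    | nil => exact absurd rfl hS
    | node u A C => exact ⟨u, A, C, rfl⟩
  have ne : ∀ (P Q : BinaryTree Unit) (a : Unit) (Z : BinaryTree Unit), app Z (.node a P Q) ≠ .nil := by
    intro P Q a Z
    cases Z <;> simp [app]
  have ne' : ∀ (P Q : BinaryTree Unit) (a : Unit) (Z : BinaryTree Unit),
      ¬ (BinaryTree.nil = app Z (.node a P Q)) := fun P Q a Z h => ne P Q a Z h.symm
  by_cases h17 : i = 17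
  · subst h17
    simp only [W, app, BinaryTree.node.injEq, true_and, and_true] at e
    exact ⟨rfl, e.1.symm, e.2.symm⟩
  exfalso
  rcases B with _ | ⟨b, B1, B2⟩ <;> interval_cases i <;> first
    | exact h9 rfl
    | exact h17 rfl
    | (simp [W, app, ne', hY] at e)

/-- the gadget J1a over `[s][c]`, all inner words -/
theorem J1A.nis (hs : 3 ≤ s) (hc : 2 ≤ c) {g : DG k} (hA : J.J1A s c g) : ∀ p ∈ g.arcs, ∀ w ∈ innA p,
    NIS w ∨ ∃ x : X k, x.1 = (app (ch s) (ch c) △ .nil) △ .nil ∧ w = TT x := by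
  intro p hp w hw
  obtain ⟨i, hi, hx⟩ := hA p hp
  have e : w = TT p.1 := hw
  subst e
  have c1 : (OddHC.cont (app (ch s) (ch c))).count 1 = 0 := by
    rw [cont_app, Multiset.count_add, count_ch (by omega), count_ch hc]
  have h3 : 3 ≤ OddHC.ht (app (ch s) (ch c)) := by
    rw [ht_app, ch_ht]; omega
  by_cases h9 : i = 9
  · right
    subst h9
    exact ⟨p.1, hx, rfl⟩
  · left
    have hi' : i ∈ [1, 3, 6, 8] := by
      simp only [List.mem_cons, List.not_mem_nil, or_false] at hi ⊢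
      omega
    exact NIS.of_W (app_ch_ne (by omega) _) c1 h3 hi' hx

/-- the mirrored gadget J1a over `[s][c]`, all inner words -/
theorem J1MA.nis (hs : 3 ≤ s) (hc : 2 ≤ c) {g : DG k} (hA : J.J1MA s c g) : ∀ p ∈ g.arcs,
    ∀ w ∈ innA p, NIS w ∨ ∃ x : X k, x.1 = (app (ch s) (ch c) △ .nil) △ .nil ∧
      w = Tsq.mirX (TT x) := by
  intro p hp w hw
  obtain ⟨h0, i, hi, hx⟩ := hA p hp
  have e : w = TT p.1 := hw
  have e2 : TT w = p.2 := by rw [e, h0]
  have e3 : TT (Tsq.mirX p.2) = Tsq.mirX w := by rw [← e2, Tsq.TT_mir]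
  have e4 : w = Tsq.mirX (TT (Tsq.mirX p.2)) := by
    rw [e3]
    exact Subtype.ext (Tsq.mir_mir _).symm
  have c1 : (OddHC.cont (app (ch s) (ch c))).count 1 = 0 := by
    rw [cont_app, Multiset.count_add, count_ch (by omega), count_ch hc]
  have h3 : 3 ≤ OddHC.ht (app (ch s) (ch c)) := by
    rw [ht_app, ch_ht]; omega
  by_cases h9 : i = 9
  · right
    subst h9
    exact ⟨Tsq.mirX p.2, hx, e4⟩
  · left
    have hi' : i ∈ [1, 3, 6, 8] := by
      simp only [List.mem_cons, List.not_mem_nil, or_false] at hi ⊢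
      omega
    rw [e4]
    exact (NIS.of_W (x := Tsq.mirX p.2) (app_ch_ne (by omega) _) c1 h3 hi' hx).mir

end SRun

open SRun H1

variable {k s c : ℕ} {F F' : Set (Cyc k)} {g g' : DG k}

/-- the words of type J1 -/
theorem J1.TyJ1.njs (h : J1.TyJ1 F g) : ∀ w ∈ g.B, NJS w := by
  obtain ⟨R, B, S, h1, h2⟩ := h.words
  have one : ∀ {t : BinaryTree Unit}, (∀ x ∈ OddHC.cont t, 3 ≤ x) → (OddHC.cont t).count 1 = 0 := by
    intro t ht
    rw [Multiset.count_eq_zero]
    intro hx
    have := ht 1 hx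
    omega
  intro w hw
  obtain ⟨i, hi, e⟩ := h2 w hw
  exact NJS.of_W h1.ne h1.hS (one h1.bare) (one h1.bareB) (one h1.bareS) hi (Or.inl e)

/-- **I-J3V-J1** -/
theorem TyJ3V.inner_J1 (h : TyJ3V F g) (h' : J1.TyJ1 F' g') : ∀ p ∈ g.arcs, ∀ w ∈ innA p, w ∉ g'.B :=
  fun p hp w hw => (h.nis p hp w hw).not_mem h'.njs

/-- **I-J3V-J1**, right and mirrored, over `[s][c]` -/
theorem TyJ3V.inner_J1s (h : TyJ3V F g) (hs : 2 ≤ s) (hc : 2 ≤ c) {B : Finset (X k)}
    (h' : ∀ w ∈ B, J.IsJ1 s c w.1 ∨ J.IsJ1M s c w.1) : ∀ p ∈ g.arcs, ∀ w ∈ innA p, w ∉ B :=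
  fun p hp w hw => (h.nis p hp w hw).not_mem fun v hv => IsJ1.njs hs hc (h' v hv)

/-- **I-JM-J1** -/
theorem TyJM.inner_J1s (h : TyJM F g) (hs : 2 ≤ s) (hc : 2 ≤ c) {B : Finset (X k)}
    (h' : ∀ w ∈ B, J.IsJ1 s c w.1 ∨ J.IsJ1M s c w.1) : ∀ p ∈ g.arcs, ∀ w ∈ innA p, w ∉ B :=
  fun p hp w hw => (h.nis p hp w hw).not_mem fun v hv => IsJ1.njs hs hc (h' v hv)

/-- the word `((Y))`, `Y` of content `(s, c)`, is not in a gadget of type J3V without `(s, c, 2)` -/
theorem TyJ3V.not_par2 (h' : TyJ3V F' g') {Y : BinaryTree Unit} (hY : Y ≠ .nil) {M : Multiset ℕ}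
    (hM : OddHC.cont Y = M) (hF : ∀ z ∈ F', contc z ≠ M + {2}) {w : X k}
    (e : w.1 = (Y △ .nil) △ .nil) : w ∉ g'.B := by
  obtain ⟨R, B, S, w0, h1, hp, rfl, rfl⟩ := h'
  intro hw
  obtain ⟨i, hi, h9, rfl⟩ := mem_gadS.1 hw
  rw [h1.word w0 hi] at e
  obtain ⟨_, e1, e2⟩ := par2_W h1.ne h1.neS hY hi h9 e.symm
  refine hF (cyc (J3.sX R B S w0 0)) (Or.inl rfl) ?_
  have e3 := h1.cont
  rw [e2, cont_nil, zero_add, e1, hM] at e3
  rw [contc_cyc, h1.cont0 w0, e3]

/-- **I-J1-J3V**, right, `s ≥ c + 2` -/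
theorem J1A.inner_J3V (hc : 2 ≤ c) (hs : c + 2 ≤ s) (hA : J.J1A s c g) (h' : TyJ3V F' g')
    (hF : ∀ z ∈ F', contc z ≠ {c} + {s} + {2}) : ∀ p ∈ g.arcs, ∀ w ∈ innA p, w ∉ g'.B := by
  intro p hp w hw
  rcases J1A.nis (by omega) hc hA p hp w hw with h | ⟨x, hx, rfl⟩
  · exact h.not_mem h'.njs
  · obtain ⟨m, rfl⟩ : ∃ m, s = m + 2 + c := ⟨s - c - 2, by omega⟩
    have e := TT_nine hx
    have hY := (cont_prn (m := m) (c := c) (by omega)).1
    refine h'.not_par2 (Y := prn m (app (ch c) (ch (c + 2)))) ?_ hY ?_ e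
    · intro e0
      rw [e0, cont_nil] at hY
      have := congrArg Multiset.card hY
      simp at this
    · rw [show c + 2 + m = m + 2 + c by omega]
      exact hF

/-- **I-J1M-J3V**, mirrored, `s ≥ c + 2` -/
theorem J1MA.inner_J3V (hc : 2 ≤ c) (hs : c + 2 ≤ s) (hA : J.J1MA s c g) (h' : TyJ3V F' g')
    (hF : ∀ z ∈ F', contc z ≠ {c} + {s} + {2}) : ∀ p ∈ g.arcs, ∀ w ∈ innA p, w ∉ g'.B := by
  intro p hp w hw
  rcases J1MA.nis (by omega) hc hA p hp w hw with h | ⟨x, hx, rfl⟩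
  · exact h.not_mem h'.njs
  · obtain ⟨m, rfl⟩ : ∃ m, s = m + 2 + c := ⟨s - c - 2, by omega⟩
    have e := TT_nine hx
    have hY := (cont_prn (m := m) (c := c) (by omega)).2
    have e' : (Tsq.mirX (TT x)).1 = (prn m (app (ch (c + 2)) (ch c)) △ .nil) △ .nil := by
      change Tsq.mir (TT x).1 = _
      rw [e]
      change Tsq.mir (prn (m + 2) (app (ch c) (ch (c + 2)))) = prn (m + 2) (app (ch (c + 2)) (ch c))
      rw [mir_prn, Tsq.mir_app, mir_ch, mir_ch]
    refine h'.not_par2 (Y := prn m (app (ch (c + 2)) (ch c))) ?_ hY ?_ e'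
    · intro e0
      rw [e0, cont_nil] at hY
      have := congrArg Multiset.card hY
      simp at this
    · rw [show c + 2 + m = m + 2 + c by omega]
      exact hF

end Pool.OddHC
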