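import Pool.Agent.Work.MP_8f87b2_h68.JI
import Pool.Agent.Work.MP_8f87b2_h99.Ty9

/-!
# MP_8f87b2_co: the nine-word gadgets with `P = Q = nil` (JV) in the language of `NJS`, `NIS`

All words of `Is9 nil nil S`, `Is9M nil nil S` are `NJS` (`S` without 1-parts). The inner words of the arcs 4, 5 are `NIS`, the inner
word of the arc 3, `T(((S)))`, has only runs of length at least 2 (`D2`). The same for `T(S(()))`.
-/

set_option autoImplicit false

namespace Pool.OddHC

open Finset Equiv BinaryTree Pool.Agent.Work.MP_8f87b2_co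

namespace SRun

open H1

variable {k : ℕ}

theorem NJS.mir {w : X k} (h : NJS (Tsq.mirX w)) : NJS w := by
  have e : Tsq.mir (Tsq.mirX w).1 = w.1 := Tsq.mir_mir _
  have h2 := h.2
  rw [e] at h2
  exact ⟨h2, h.1⟩

theorem NIS.mir {w : X k} (h : NIS w) : NIS (Tsq.mirX w) := by
  have e : Tsq.mirX (Tsq.mirX w) = w := Subtype.ext (Tsq.mir_mir _)
  rcases h with h | h
  · right; rw [e]; exact h
  · exact Or.inl h

/-- shorten the last run -/
theorem D2.short {w : List Bool} (h : D2 w) : ∀ {l : List Bool} {c : Bool}, w = l ++ [c, c, c] →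
    D2 (l ++ [c, c]) := by
  induction h with
  | nil =>
    intro l c e
    exact absurd e (by simp)
  | two x m hm ih =>
    intro l c e
    rcases l with _ | ⟨y, _ | ⟨z, l⟩⟩
    · simp only [List.nil_append, List.cons.injEq] at e
      obtain ⟨_, _, rfl⟩ := e
      exact absurd hm (fun h => D2.not_one h)
    · simp only [List.cons_append, List.nil_append, List.cons.injEq] at e
      obtain ⟨rfl, rfl, _⟩ := e
      exact D2.three _ [] D2.nil
    · simp only [List.cons_append, List.cons.injEq] at e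
      obtain ⟨rfl, rfl, e⟩ := e
      exact D2.two _ _ (ih e)
  | three x m hm ih =>
    intro l c e
    rcases l with _ | ⟨y, _ | ⟨z, _ | ⟨u, l⟩⟩⟩
    · simp only [List.nil_append, List.cons.injEq] at e
      obtain ⟨rfl, _, _, _⟩ := e
      exact D2.two _ [] D2.nil
    · simp only [List.cons_append, List.nil_append, List.cons.injEq] at e
      obtain ⟨_, _, _, rfl⟩ := e
      exact absurd hm (fun h => D2.not_one h)
    · simp only [List.cons_append, List.nil_append, List.cons.injEq] at e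
      obtain ⟨rfl, rfl, rfl, _⟩ := e
      exact D2.two _ _ (D2.two _ [] D2.nil)
    · simp only [List.cons_append, List.cons.injEq] at e
      obtain ⟨rfl, rfl, rfl, e⟩ := e
      exact D2.three _ _ (ih e)

/-- before and after the first maximum, with `D2` on both sides -/
theorem Gd.fm2 {R : BinaryTree Unit} (h : Gd R) (h3 : 3 ≤ Tsq.ht R) : ∃ a b, H1.FM R a b ∧
    D2 (b.map not) ∧ (∃ β, b.map not = β ++ [true]) ∧ D2 (a.map not) ∧
    ∃ x l, a.map not = false :: x :: l := by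
  obtain ⟨a, b, fm, hb, hβ, _, ha⟩ := h.fm h3
  obtain ⟨a', b', ⟨fm', up, dn⟩⟩ := hg_FMT (by norm_num) h.hg (by omega : 2 < Tsq.ht R)
  obtain ⟨rfl, rfl⟩ := fm.uniq fm'
  refine ⟨a, b, fm, hb, hβ, ?_, ha⟩
  apply D2.mapnot
  obtain ⟨b', hb'⟩ : ∃ b', b = false :: b' := by
    rcases dn with ⟨r, hr⟩ | ⟨r, hr⟩
    · exact ⟨_, hr⟩
    · exact ⟨_, hr⟩
  have hD := h.d2
  rw [fm.eq, hb'] at hD
  have h1 : D2 (a ++ [true]) := (hD.cut (by simp) rfl).1
  rcases up with e | ⟨a', e⟩ | ⟨a', e⟩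
  · rw [e]
    exact D2.two _ [] D2.nil
  · have e1 : a ++ [true] = (a' ++ [true]) ++ [true, true, true] := by
      rw [e]; simp [List.replicate]
    have h2 := h1.short e1
    rw [e]
    have e2 : a' ++ List.replicate (2 + 1) true = (a' ++ [true]) ++ [true, true] := by
      simp [List.replicate]
    rw [e2]
    exact h2
  · have e1 : a ++ [true] = (a' ++ [false]) ++ false :: true :: [true, true] := by
      rw [e]; simp [List.replicate]
    have h2 := (h1.cut (by simp) e1).1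
    have e2 : a = (a' ++ [false]) ++ [false] ++ [true, true] := by
      rw [e]; simp [List.replicate]
    rw [e2]
    exact h2.app (D2.two _ [] D2.nil)

/-- the inner words 0 and 9 have only runs of length at least 2 -/
theorem inner_D2 {R B S : BinaryTree Unit} (h : Gd R) (h3 : 3 ≤ Tsq.ht R) {x : X k} :
    ∀ i ∈ [0, 9], x.1 = W R .nil B S i → D2 (wd (TT x).1) := by
  obtain ⟨a, b, fm, hb, ⟨β, hβ⟩, ha, y, l, hy⟩ := h.fm2 h3
  have hn : Tsq.ht (.nil : BinaryTree Unit) = 0 := rfl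
  have ha2 : D2 (false :: a.map not) := by
    rw [hy] at ha ⊢
    exact ha.cons
  intro i hi e
  simp only [List.mem_cons, List.not_mem_nil, or_false] at hi
  rcases hi with rfl | rfl
  · have k1 := fm.app_right (Z := (.nil △ .nil) △ .nil) (by
      rw [Tsq.ht_node, Tsq.ht_node, hn]; omega)
    have e' : x.1 = app R ((.nil △ .nil) △ .nil) := e
    rw [← e'] at k1
    rw [k1.wdT]
    have e2 : (b ++ wd ((.nil △ .nil) △ .nil : BinaryTree Unit)).map not ++ false :: a.map not =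
        b.map not ++ ([false, false, true, true] ++ (false :: a.map not)) := by simp [wd]
    rw [e2]
    exact hb.app ((D2.two _ _ (D2.two _ [] D2.nil)).app ha2)
  · have k1 := (fm.node (Z := .nil) (by rw [hn]; omega)).node (Z := .nil) (by rw [hn]; omega)
    have e' : x.1 = (R △ .nil) △ .nil := e
    rw [← e'] at k1
    rw [k1.wdT]
    have e2 : ((b ++ false :: wd (.nil : BinaryTree Unit)) ++ false :: wd (.nil : BinaryTree Unit)).map
        not ++ false :: (true :: true :: a).map not =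
        b.map not ++ ([true, true] ++ ([false, false, false] ++ a.map not)) := by simp [wd]
    rw [e2]
    exact hb.app ((D2.two _ _ D2.nil).app ((D2.three _ _ D2.nil).app ha))

/-- the words with a single run -/
theorem not_D2_lo {R : BinaryTree Unit} (h : Gd R) {i : ℕ} (hi : i ∈ [1, 2, 3, 5, 6, 7, 8]) :
    ¬ D2 (wd (J.pw R i)) := by
  obtain ⟨v, hv⟩ := h.stop
  obtain ⟨v', hv'⟩ := h.start
  simp only [List.mem_cons, List.not_mem_nil, or_false] at hi
  rcases hi with rfl | rfl | rfl | rfl | rfl | rfl | rfl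
  · refine (SR.mk' (u := wd R) (r := [true, false]) (c := true) (d := false) ?_ h.d2 hv (by simp)
      (by simp)).not_D2
    change wd (app R (.nil △ (.nil △ .nil))) = _
    rw [wd_app]; rfl
  · exact fun h => absurd (D2.eq h) (by simp)
  · refine (SR.mk' (u := true :: wd R) (u' := true :: (v ++ [false])) (r := [false]) ?_
      h.cons (by rw [hv]; simp) (z := false) (c := true) (d := false) (by simp) (by simp)).not_D2
    change wd (app R (.nil △ .nil) △ .nil) = _
    rw [wd_node, wd_app]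
    simp [wd]
  · exact fun h => absurd (D2.eq h) (by simp)
  · have h1 : Gd (R △ .nil) := h.node trivial
    obtain ⟨v1, hv1⟩ := h1.stop
    refine (SR.mk' (u := wd (R △ .nil)) (r := []) (c := true) (d := false) ?_ h1.d2 hv1 (by simp)
      (by simp)).not_D2
    change wd (R △ (.nil △ .nil)) = _
    rw [wd_node, wd_node]
    simp [wd]
  · have h2 : SR (wd (J.pw R 7)) [true, true] false true (true :: (v' ++ [false])) := by
      refine ⟨?_, D2.two _ _ D2.nil, by simp, by simp⟩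
      change wd ((.nil △ R) △ .nil) = _
      rw [wd_node, wd_node, hv']
      simp [wd]
    exact h2.not_D2
  · exact fun h => absurd (D2.eq h) (by simp)

end SRun

open SRun

variable {k : ℕ} {F F' : Set (Cyc k)} {g g' : DG k} {S : BinaryTree Unit} {w : ℕ → X k}

/-- the data of the square -/
theorem D9.sqd (h : D9 .nil .nil S w) (h3 : 3 ≤ ht S) (h1 : (cont S).count 1 = 0) :
    J3.SqD k S (bT S) (sT S) := by
  refine ⟨Prod.ext (sT_sq S).1.symm (sT_sq S).2.symm, h3, h1, h.two, ?_⟩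
  have := h.size
  have n0 : (BinaryTree.nil : BinaryTree Unit).numNodes = 0 := rfl
  omega

/-- the index in the list of the twenty words -/
def j9 : ℕ → ℕ
  | 0 => 0
  | 1 => 4
  | 2 => 7
  | 3 => 9
  | 4 => 3
  | 5 => 6
  | 6 => 17
  | 7 => 12
  | _ => 15

theorem D9.wordW (h : D9 .nil .nil S w) {i : ℕ} (hi : i < 9) :
    (w i).1 = H1.W S .nil (bT S) (sT S) (j9 i) := by
  rw [h.word i hi]
  interval_cases i <;> rfl

theorem j9_lt (i : ℕ) : j9 i < 20 := by
  unfold j9
  split <;> omega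

theorem D9.njs (h : D9 .nil .nil S w) (h3 : 3 ≤ ht S) (h1 : (cont S).count 1 = 0) {i : ℕ}
    (hi : i < 9) : NJS (w i) := by
  have h2 := h.sqd h3 h1
  exact NJS.of_W h2.ne h2.neS h2.one h2.oneB h2.oneS (j9_lt i) (Or.inl (h.wordW hi))

theorem Is9.njs (h : Is9 .nil .nil S F g) (h3 : 3 ≤ ht S) (h1 : (cont S).count 1 = 0) :
    ∀ w ∈ g.B, NJS w := by
  obtain ⟨w, h2, rfl, rfl⟩ := h
  intro v hv
  obtain ⟨i, hi, rfl⟩ := mem_gad9.1 hv
  exact h2.njs h3 h1 hi

theorem D9M.njs (h : D9M .nil .nil S w) (h3 : 3 ≤ ht S) (h1 : (cont S).count 1 = 0) {i : ℕ}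
    (hi : i < 9) : NJS (w i) := by
  have h2 := h.mir
  apply NJS.mir
  exact h2.njs (by rw [ht_mir]; exact h3) (by rw [HM.cont_mir]; exact h1) hi

theorem Is9M.njs (h : Is9M .nil .nil S F g) (h3 : 3 ≤ ht S) (h1 : (cont S).count 1 = 0) :
    ∀ w ∈ g.B, NJS w := by
  obtain ⟨w, h2, rfl, rfl⟩ := h
  intro v hv
  obtain ⟨i, hi, rfl⟩ := mem_gad9M.1 hv
  exact h2.njs h3 h1 hi

/-- the inner words: arcs 4, 5 `NIS`, arc 3 `D2` -/
theorem D9.nis (h : D9 .nil .nil S w) (h3 : 3 ≤ ht S) (h1 : (cont S).count 1 = 0) :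
    NIS (TT (w 4)) ∧ NIS (TT (w 5)) ∧ D2 (wd (TT (w 3)).1) := by
  have h2 := h.sqd h3 h1
  have h3' : 3 ≤ Tsq.ht S := by rw [H1.ht_eq]; exact h3
  exact ⟨NIS.of_W h2.ne h2.one h2.h3 (i := 3) (by simp) (h.wordW (i := 4) (by norm_num)),
    NIS.of_W h2.ne h2.one h2.h3 (i := 6) (by simp) (h.wordW (i := 5) (by norm_num)),
    inner_D2 (Gd_of h2.ne h2.one).1 h3' 9 (by simp) (h.wordW (i := 3) (by norm_num))⟩

theorem Is9.nis (h : Is9 .nil .nil S F g) (h3 : 3 ≤ ht S) (h1 : (cont S).count 1 = 0) :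
    ∀ p ∈ g.arcs, ∀ v ∈ innA p, NIS v ∨ (D2 (wd v.1) ∧ v = TT p.1 ∧ p.1.1 = (S △ .nil) △ .nil) := by
  obtain ⟨w, h2, rfl, rfl⟩ := h
  obtain ⟨n4, n5, n3⟩ := h2.nis h3 h1
  intro p hp v hv
  have hp' : p = (w 3, w 6) ∨ p = (w 4, w 7) ∨ p = (w 5, w 8) := hp
  have hv' : v = TT p.1 := hv
  subst hv'
  rcases hp' with rfl | rfl | rfl
  · exact Or.inr ⟨n3, rfl, h2.word 3 (by norm_num)⟩
  · exact Or.inl n4
  · exact Or.inl n5

theorem Is9M.nis (h : Is9M .nil .nil S F g) (h3 : 3 ≤ ht S) (h1 : (cont S).count 1 = 0) :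
    ∀ p ∈ g.arcs, ∀ v ∈ innA p, NIS v ∨ (D2 (wd (Tsq.mirX v).1) ∧
      ∃ x : X k, v = Tsq.mirX (TT x) ∧ x.1 = (Tsq.mir S △ .nil) △ .nil) := by
  obtain ⟨w, h2, rfl, rfl⟩ := h
  obtain ⟨n4, n5, n3⟩ := h2.mir.nis (by rw [ht_mir]; exact h3) (by rw [HM.cont_mir]; exact h1)
  obtain ⟨i6, i7, i8⟩ := h2.inner
  intro p hp v hv
  have hp' : p = (w 6, w 3) ∨ p = (w 7, w 4) ∨ p = (w 8, w 5) := hp
  have hv' : v = TT p.1 := hv
  subst hv'
  rcases hp' with rfl | rfl | rfl
  · right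
    change D2 (wd (Tsq.mirX (TT (w 6))).1) ∧ ∃ x : X k, TT (w 6) = Tsq.mirX (TT x) ∧ _
    rw [i6]
    refine ⟨?_, _, rfl, h2.mir.word 3 (by norm_num)⟩
    have e : Tsq.mirX (Tsq.mirX (TT (Tsq.mirX (w 3)))) = TT (Tsq.mirX (w 3)) :=
      Subtype.ext (Tsq.mir_mir _)
    rw [e]
    exact n3
  · left
    change NIS (TT (w 7))
    rw [i7]
    exact n4.mir
  · left
    change NIS (TT (w 8))
    rw [i8]
    exact n5.mir

/-- **I-J3V-JV**, right and mirrored -/
theorem TyJ3V.inner_JV (h : TyJ3V F g) (h' : Is9 .nil .nil S F' g' ∨ Is9M .nil .nil S F' g')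
    (h3 : 3 ≤ ht S) (h1 : (cont S).count 1 = 0) : ∀ p ∈ g.arcs, ∀ w ∈ innA p, w ∉ g'.B := by
  intro p hp w hw
  rcases h' with h' | h'
  · exact (h.nis p hp w hw).not_mem (h'.njs h3 h1)
  · exact (h.nis p hp w hw).not_mem (h'.njs h3 h1)

/-- **I-JM-JV**, right and mirrored -/
theorem TyJM.inner_JV (h : TyJM F g) (h' : Is9 .nil .nil S F' g' ∨ Is9M .nil .nil S F' g')
    (h3 : 3 ≤ ht S) (h1 : (Pool.OddHC.cont S).count 1 = 0) : ∀ p ∈ g.arcs, ∀ w ∈ innA p, w ∉ g'.B := by
  intro p hp w hw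
  rcases h' with h' | h'
  · exact (h.nis p hp w hw).not_mem (h'.njs h3 h1)
  · exact (h.nis p hp w hw).not_mem (h'.njs h3 h1)

end Pool.OddHC
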