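import Pool.Agent.Work.MP_8f87b2_h68.J1I
import Pool.Agent.Work.MP_8f87b2_h13.TyR3

/-!
# MP_8f87b2_co: the inner words of J3V and J1 against the right windows R3, S3 (`c = 3`)

`RS`: shape of all words `W R (()) B S i` and of their mirror images. `IS2`: shape of the inner words of the arcs 1, 3, 6, 8 of
the gadgets with `Q = nil`. They are disjoint. Rows I-J3V-R3, I-J3V-S3, I-J1-R3, I-J1-S3 (also for the mirrored J1a).
-/

set_option autoImplicit false
set_option linter.unusedSimpArgs false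

namespace Pool.OddHC

open Finset Equiv BinaryTree Pool.Agent.Work.MP_8f87b2_co

namespace SRun

open H1 J

variable {k s c : ℕ} {R B S : BinaryTree Unit}

/-- shape of the inner words, refined -/
def IS2 (y : List Bool) : Prop :=
  (∃ u l, SR y u false true l ∧ 3 ≤ u.length ∧ l ≠ [false, false]) ∨
    ∃ u l, SR y u true false (false :: false :: l) ∧ u ≠ []

/-- shape of the words of the windows with `Q = ()` -/
def RS (w : List Bool) : Prop :=
  JS w ∨ (∃ u, SR w u false true [false, false]) ∨ ∃ u, SR w u true false [false, true, false]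

theorem IS2.toIS {y : List Bool} (h : IS2 y) : IS y := by
  rcases h with ⟨u, l, h1, h2, _⟩ | ⟨u, l, h1, h2⟩
  · exact Or.inl ⟨u, l, h1, h2⟩
  · exact Or.inr ⟨u, false, l, h1, h2⟩

theorem IS2.not_RS {y : List Bool} (h : IS2 y) (h' : RS y) : False := by
  rcases h' with h' | h'
  · exact h.toIS.not_JS h'
  · rcases h with ⟨u, l, h1, _, h2⟩ | ⟨u, l, h1, _⟩ <;> rcases h' with ⟨u', h3⟩ | ⟨u', h3⟩
    · exact h2 (h1.uniq h3).2.2.2
    · exact absurd (h1.uniq h3).2.1 (by simp)
    · exact absurd (h1.uniq h3).2.1 (by simp)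
    · have := (h1.uniq h3).2.2.2
      simp at this

theorem RS.bb {w u u' : List Bool} (e : w = u ++ false :: true :: [false, false]) (h : D2 u)
    (hu : u = u' ++ [true]) : RS w :=
  Or.inr (Or.inl ⟨u, SR.mk' e h hu (by simp) (by simp)⟩)

theorem RS.cc {w u u' : List Bool} (e : w = u ++ true :: false :: [false, true, false]) (h : D2 u)
    (hu : u = u' ++ [false]) : RS w :=
  Or.inr (Or.inr ⟨u, SR.mk' e h hu (by simp) (by simp)⟩)

/-- **all words, right** -/
theorem RS_W (hR : Gd R) (hB : B = .nil ∨ Gd B) (hS : Gd S) {i : ℕ} (hi : i < 20) :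
    RS (wd (W R (.nil △ .nil) B S i)) := by
  obtain ⟨vR, hvR⟩ := hR.start
  obtain ⟨zR, hzR⟩ := hR.stop
  obtain ⟨vS, hvS⟩ := hS.start
  obtain ⟨zS, hzS⟩ := hS.stop
  have dB : D2 (wd B) := by
    rcases hB with rfl | h
    · exact D2.nil
    · exact h.d2
  have hB2 : H1.hg 2 B := by
    rcases hB with rfl | h
    · trivial
    · exact h.hg
  interval_cases i
  · left
    refine Or.inl ?_
    change D2 (wd (app R (((.nil △ .nil) △ .nil) △ .nil)))
    rw [wd_app]
    exact hR.d2.app (D2.three _ _ (D2.three _ _ D2.nil))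
  · left
    refine JS.two (l := [true, false, true, false]) ?_ hR.d2 hzR (Or.inr (Or.inr ⟨_, rfl⟩))
    change wd (app R (.nil △ (.nil △ (.nil △ .nil)))) = _
    rw [wd_app]; rfl
  · exact Or.inl (JS.st rfl)
  · left
    refine JS.two (u := true :: wd R) (u' := true :: (zR ++ [false])) (l := [true, false, false]) ?_
      hR.cons (by rw [hzR]; simp) (Or.inr (Or.inr ⟨_, rfl⟩))
    change wd (app R (.nil △ (.nil △ .nil)) △ .nil) = _
    rw [wd_node, wd_app]
    simp [wd]
  · exact Or.inl (JS.one rfl)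
  · left
    exact JS.two (u := [true, true, false, false]) (u' := [true, true, false]) (l := wd R) rfl
      (D2.two _ _ (D2.two _ _ D2.nil)) rfl (Or.inr (Or.inr ⟨_, hvR⟩))
  · exact Or.inl (Or.inl (hR.node (hg_one (X := .nil) trivial)).d2)
  · exact Or.inl (JS.st rfl)
  · exact Or.inl (JS.st rfl)
  · left
    have h3 : Gd ((R △ .nil) △ .nil) := (hR.node (C := .nil) trivial).node (C := .nil) trivial
    obtain ⟨v1, hv1⟩ := h3.stop
    refine JS.two (l := []) ?_ h3.d2 hv1 (Or.inl rfl)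
    change wd ((R △ .nil) △ (.nil △ .nil)) = _
    rw [wd_node, wd_node, wd_node, wd_node]
    simp [wd]
  · left
    refine Or.inl ?_
    change D2 (wd (app B (((.nil △ .nil) △ .nil) △ S)))
    rw [wd_app]
    exact dB.app ((D2.three _ _ (D2.three _ _ D2.nil)).app hS.d2)
  · left
    rcases hB with rfl | h
    · exact JS.st rfl
    · obtain ⟨v, hv⟩ := h.stop
      refine JS.two (l := true :: (false :: (true :: (false :: wd S)))) ?_ h.d2 hv
        (Or.inr (Or.inr ⟨_, rfl⟩))
      change wd (app B (.nil △ (.nil △ (.nil △ S)))) = _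
      rw [wd_app]; rfl
  · left
    have h3 : Gd (S △ B) := hS.node hB2
    obtain ⟨v1, hv1⟩ := h3.stop
    refine JS.two (l := [true, false]) ?_ h3.d2 hv1 (Or.inr (Or.inr ⟨_, rfl⟩))
    change wd (S △ app B (.nil △ (.nil △ .nil))) = _
    rw [wd_node, wd_node, wd_app]
    simp [wd]
  · rcases hB with rfl | h
    · refine RS.bb (u := wd S ++ [true, true]) (u' := wd S ++ [true]) ?_
        (hS.d2.app (D2.two _ _ D2.nil)) (by simp)
      change wd (app S ((.nil △ (.nil △ .nil)) △ .nil)) = _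
      rw [wd_app]
      simp [wd]
    · left
      obtain ⟨v, hv⟩ := h.stop
      refine JS.two (u := wd S ++ (true :: wd B)) (l := [true, false, false])
        (u' := wd S ++ (true :: (v ++ [false]))) ?_ (hS.d2.app h.cons)
        (by rw [hv]; simp) (Or.inr (Or.inr ⟨_, rfl⟩))
      change wd (app S (app B (.nil △ (.nil △ .nil)) △ .nil)) = _
      rw [wd_app, wd_node, wd_app]
      simp [wd]
  · exact Or.inl (JS.one rfl)
  · left
    refine Or.inl ?_
    change D2 (wd ((.nil △ .nil) △ (S △ B)))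
    exact (D2.two _ _ (D2.two _ _ D2.nil)).app (hS.node hB2).d2
  · left
    rcases hB with rfl | h
    · refine JS.two (l := [true, true, false, false]) ?_ hS.d2 hzS (Or.inr (Or.inr ⟨_, rfl⟩))
      change wd (app S (.nil △ ((.nil △ .nil) △ .nil))) = _
      rw [wd_app]; rfl
    · exact Or.inl (hS.app (h.node (hg_one (X := .nil) trivial)).hg).d2
  · exact Or.inl (JS.st rfl)
  · exact Or.inl (JS.st rfl)
  · rcases hB with rfl | h
    · refine RS.cc (u := true :: wd S) (u' := true :: (zS ++ [false])) ?_ hS.cons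
        (by rw [hzS]; simp)
      change wd (app S (.nil △ .nil) △ (.nil △ .nil)) = _
      rw [wd_node, wd_app]
      simp [wd]
    · left
      have h3 : Gd (app S (B △ .nil) △ .nil) :=
        (hS.app (h.node (C := .nil) trivial).hg).node (C := .nil) trivial
      obtain ⟨v1, hv1⟩ := h3.stop
      refine JS.two (l := []) ?_ h3.d2 hv1 (Or.inl rfl)
      change wd (app S (B △ .nil) △ (.nil △ .nil)) = _
      rw [wd_node, wd_node]
      simp [wd]

/-- **all words, mirrored** -/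
theorem RS_mW (hR : Gd (Tsq.mir R)) (hB : Tsq.mir B = .nil ∨ Gd (Tsq.mir B)) (hS : Gd (Tsq.mir S))
    {i : ℕ} (hi : i < 20) : RS (wd (Tsq.mir (W R (.nil △ .nil) B S i))) := by
  have h0 : Tsq.mir BinaryTree.nil = BinaryTree.nil := rfl
  have sim : ∀ t, Tsq.mir (W R (.nil △ .nil) B S i) = t → RS (wd t) →
      RS (wd (Tsq.mir (W R (.nil △ .nil) B S i))) := fun t e h => by rw [e]; exact h
  generalize hR' : Tsq.mir R = R' at hR
  generalize hB' : Tsq.mir B = B' at hB
  generalize hS' : Tsq.mir S = S' at hS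
  obtain ⟨vR, hvR⟩ := hR.start
  obtain ⟨zR, hzR⟩ := hR.stop
  obtain ⟨vS, hvS⟩ := hS.start
  obtain ⟨zS, hzS⟩ := hS.stop
  have dB : D2 (wd B') := by
    rcases hB with rfl | h
    · exact D2.nil
    · exact h.d2
  have hB2 : H1.hg 2 B' := by
    rcases hB with rfl | h
    · trivial
    · exact h.hg
  interval_cases i
  · refine sim (((.nil △ .nil) △ .nil) △ R') (by
      simp only [W, Tsq.mir_node, Tsq.mir_app, h0, app, app_nil', app_assoc', hR', hB', hS']) ?_
    exact Or.inl (Or.inl ((D2.three _ _ (D2.three _ _ D2.nil)).app hR.d2))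
  · refine sim (.nil △ (.nil △ (.nil △ R'))) (by
      simp only [W, Tsq.mir_node, Tsq.mir_app, h0, app, app_nil', app_assoc', hR', hB', hS']) ?_
    exact Or.inl (JS.st rfl)
  · refine sim (.nil △ (.nil △ app R' (.nil △ .nil))) (by
      simp only [W, Tsq.mir_node, Tsq.mir_app, h0, app, app_nil', app_assoc', hR', hB', hS']) ?_
    exact Or.inl (JS.st rfl)
  · refine sim ((.nil △ (.nil △ R')) △ .nil) (by
      simp only [W, Tsq.mir_node, Tsq.mir_app, h0, app, app_nil', app_assoc', hR', hB', hS']) ?_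
    exact Or.inl (JS.one rfl)
  · refine sim (app R' ((.nil △ (.nil △ .nil)) △ .nil)) (by
      simp only [W, Tsq.mir_node, Tsq.mir_app, h0, app, app_nil', app_assoc', hR', hB', hS']) ?_
    refine RS.bb (u := wd R' ++ [true, true]) (u' := wd R' ++ [true]) ?_
      (hR.d2.app (D2.two _ _ D2.nil)) (by simp)
    rw [wd_app]
    simp [wd]
  · refine sim (app R' (.nil △ ((.nil △ .nil) △ .nil))) (by
      simp only [W, Tsq.mir_node, Tsq.mir_app, h0, app, app_nil', app_assoc', hR', hB', hS']) ?_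
    left
    refine JS.two (l := [true, true, false, false]) ?_ hR.d2 hzR (Or.inr (Or.inr ⟨_, rfl⟩))
    rw [wd_app]; rfl
  · refine sim ((.nil △ .nil) △ (R' △ .nil)) (by
      simp only [W, Tsq.mir_node, Tsq.mir_app, h0, app, app_nil', app_assoc', hR', hB', hS']) ?_
    exact Or.inl (Or.inl ((D2.two _ _ (D2.two _ _ D2.nil)).app (hR.node (C := .nil) trivial).d2))
  · refine sim (app R' (.nil △ .nil) △ (.nil △ .nil)) (by
      simp only [W, Tsq.mir_node, Tsq.mir_app, h0, app, app_nil', app_assoc', hR', hB', hS']) ?_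
    refine RS.cc (u := true :: wd R') (u' := true :: (zR ++ [false])) ?_ hR.cons
      (by rw [hzR]; simp)
    rw [wd_node, wd_app]
    simp [wd]
  · refine sim (R' △ (.nil △ (.nil △ .nil))) (by
      simp only [W, Tsq.mir_node, Tsq.mir_app, h0, app, app_nil', app_assoc', hR', hB', hS']) ?_
    left
    have h3 : Gd (R' △ .nil) := hR.node (C := .nil) trivial
    obtain ⟨v1, hv1⟩ := h3.stop
    refine JS.two (l := [true, false]) ?_ h3.d2 hv1 (Or.inr (Or.inr ⟨_, rfl⟩))
    rw [wd_node, wd_node]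
    simp [wd]
  · refine sim (.nil △ ((R' △ .nil) △ .nil)) (by
      simp only [W, Tsq.mir_node, Tsq.mir_app, h0, app, app_nil', app_assoc', hR', hB', hS']) ?_
    exact Or.inl (JS.st rfl)
  · refine sim (app S' (((.nil △ .nil) △ .nil) △ B')) (by
      simp only [W, Tsq.mir_node, Tsq.mir_app, h0, app, app_nil', app_assoc', hR', hB', hS']) ?_
    refine Or.inl (Or.inl ?_)
    rw [wd_app]
    exact hS.d2.app ((D2.three _ _ (D2.three _ _ D2.nil)).app dB)
  · refine sim (app S' (.nil △ (.nil △ (.nil △ B')))) (by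
      simp only [W, Tsq.mir_node, Tsq.mir_app, h0, app, app_nil', app_assoc', hR', hB', hS']) ?_
    left
    refine JS.two (l := true :: (false :: (true :: (false :: wd B')))) ?_ hS.d2 hzS
      (Or.inr (Or.inr ⟨_, rfl⟩))
    rw [wd_app]; rfl
  · refine sim (.nil △ (.nil △ app B' (S' △ .nil))) (by
      simp only [W, Tsq.mir_node, Tsq.mir_app, h0, app, app_nil', app_assoc', hR', hB', hS']) ?_
    exact Or.inl (JS.st rfl)
  · refine sim ((.nil △ (.nil △ B')) △ S') (by
      simp only [W, Tsq.mir_node, Tsq.mir_app, h0, app, app_nil', app_assoc', hR', hB', hS']) ?_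
    exact Or.inl (JS.one rfl)
  · refine sim (app B' (app S' (.nil △ (.nil △ .nil)) △ .nil)) (by
      simp only [W, Tsq.mir_node, Tsq.mir_app, h0, app, app_nil', app_assoc', hR', hB', hS']) ?_
    left
    refine JS.two (u := wd B' ++ (true :: wd S')) (l := [true, false, false])
      (u' := wd B' ++ (true :: (zS ++ [false]))) ?_ (dB.app hS.cons)
      (by rw [hzS]; simp) (Or.inr (Or.inr ⟨_, rfl⟩))
    rw [wd_app, wd_node, wd_app]
    simp [wd]
  · refine sim (app B' (S' △ ((.nil △ .nil) △ .nil))) (by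
      simp only [W, Tsq.mir_node, Tsq.mir_app, h0, app, app_nil', app_assoc', hR', hB', hS']) ?_
    refine Or.inl (Or.inl ?_)
    rw [wd_app]
    exact dB.app (hS.node (hg_one (X := .nil) trivial)).d2
  · refine sim ((.nil △ .nil) △ (B' △ S')) (by
      simp only [W, Tsq.mir_node, Tsq.mir_app, h0, app, app_nil', app_assoc', hR', hB', hS']) ?_
    left
    rcases hB with rfl | h
    · exact JS.two (u := [true, true, false, false]) (u' := [true, true, false]) (l := wd S') rfl
        (D2.two _ _ (D2.two _ _ D2.nil)) rfl (Or.inr (Or.inr ⟨_, hvS⟩))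
    · exact Or.inl ((D2.two _ _ (D2.two _ _ D2.nil)).app (h.node hS.hg).d2)
  · refine sim (app B' (S' △ .nil) △ (.nil △ .nil)) (by
      simp only [W, Tsq.mir_node, Tsq.mir_app, h0, app, app_nil', app_assoc', hR', hB', hS']) ?_
    left
    have h3 : Gd (app B' (S' △ .nil) △ .nil) :=
      (Gd.appr hB2 (hS.node (C := .nil) trivial)).node (C := .nil) trivial
    obtain ⟨v1, hv1⟩ := h3.stop
    refine JS.two (l := []) ?_ h3.d2 hv1 (Or.inl rfl)
    rw [wd_node, wd_node]
    simp [wd]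
  · refine sim (B' △ app S' (.nil △ (.nil △ .nil))) (by
      simp only [W, Tsq.mir_node, Tsq.mir_app, h0, app, app_nil', app_assoc', hR', hB', hS']) ?_
    left
    rcases hB with rfl | h
    · exact JS.st rfl
    · have h3 : Gd (B' △ S') := h.node hS.hg
      obtain ⟨v1, hv1⟩ := h3.stop
      refine JS.two (l := [true, false]) ?_ h3.d2 hv1 (Or.inr (Or.inr ⟨_, rfl⟩))
      rw [wd_node, wd_node, wd_app]
      simp [wd]
  · refine sim (.nil △ ((B' △ S') △ .nil)) (by
      simp only [W, Tsq.mir_node, Tsq.mir_app, h0, app, app_nil', app_assoc', hR', hB', hS']) ?_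
    exact Or.inl (JS.st rfl)

/-- the four inner words, refined -/
theorem inner_IS2 (h : Gd R) (h3 : 3 ≤ Tsq.ht R) {x : X k} :
    ∀ i ∈ [1, 3, 6, 8], x.1 = W R .nil B S i → IS2 (wd (TT x).1) := by
  obtain ⟨a, b, fm, hb, ⟨β, hβ⟩, hl, y, l, hy⟩ := h.fm h3
  obtain ⟨v, hv⟩ := h.start
  have hn : Tsq.ht (.nil : BinaryTree Unit) = 0 := rfl
  have hy0 : y = false := by
    have e := fm.eq
    rw [hv] at e
    rcases a with _ | ⟨a1, _ | ⟨a2, a⟩⟩
    · simp at hy
    · simp at hy
    · simp only [List.cons_append, List.cons.injEq] at e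
      simp only [List.map_cons, List.cons.injEq] at hy
      rw [← hy.2.1, ← e.2.1]
      rfl
  intro i hi e
  simp only [List.mem_cons, List.not_mem_nil, or_false] at hi
  rcases hi with rfl | rfl | rfl | rfl
  · have k1 := fm.app_right (Z := .nil △ (.nil △ .nil)) (by
      rw [Tsq.ht_node, Tsq.ht_node, hn]; omega)
    have e' : x.1 = app R (.nil △ (.nil △ .nil)) := e
    rw [← e'] at k1
    refine Or.inl ⟨b.map not, false :: true :: false :: a.map not, SR.mk' ?_ hb hβ (by simp)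
      (by simp), hl, by simp⟩
    rw [k1.wdT]
    simp [wd]
  · have k1 := (fm.app_right (Z := .nil △ .nil) (by
      rw [Tsq.ht_node, hn]; omega)).node (Z := .nil) (by rw [hn]; omega)
    have e' : x.1 = (app R (.nil △ .nil) △ .nil) := e
    rw [← e'] at k1
    refine Or.inl ⟨b.map not, true :: false :: false :: a.map not, SR.mk' ?_ hb hβ (by simp)
      (by simp), hl, by simp⟩
    rw [k1.wdT]
    simp [wd]
  · have k1 := fm.node (Z := .nil △ .nil) (by rw [Tsq.ht_node, hn]; omega)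
    have e' : x.1 = R △ (.nil △ .nil) := e
    rw [← e'] at k1
    refine Or.inl ⟨b.map not ++ [true], false :: false :: a.map not, SR.mk' ?_ (hb.snoc hβ) rfl
      (by simp) (by simp), by simp; simp at hl; omega, by rw [hy]; simp⟩
    rw [k1.wdT]
    simp [wd]
  · have k1 := (fm.node (Z := .nil) (by rw [hn]; omega)).app_left (P := .nil △ .nil) (by
      rw [Tsq.ht_node, Tsq.ht_node, hn]; omega)
    have e' : x.1 = app (.nil △ .nil) (R △ .nil) := e
    rw [← e'] at k1
    refine Or.inr ⟨b.map not ++ [true] ++ [false, false], l, SR.mk' (u' := b.map not ++ [true] ++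
      [false]) (z := false) ?_ ((hb.snoc hβ).app (D2.two _ _ D2.nil)) (by simp) (by simp) (by simp),
      by simp⟩
    have hy2 : a.map not = false :: false :: l := by rw [hy, hy0]
    rw [k1.wdT]
    simp [wd, hy2]

/-- an inner word of a right or of a mirrored gadget with `Q = nil`, refined -/
def NI2 (w : X k) : Prop := IS2 (wd w.1) ∨ IS2 (wd (Tsq.mirX w).1)

/-- a word of a window with `Q = ()` -/
def NRS (w : X k) : Prop := RS (wd w.1) ∧ RS (wd (Tsq.mir w.1))

theorem NI2.toNIS {w : X k} (h : NI2 w) : NIS w := by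
  rcases h with h | h
  · exact Or.inl h.toIS
  · exact Or.inr h.toIS

theorem NI2.not {w : X k} (h : NI2 w) (h' : NRS w) : False := by
  rcases h with h | h
  · exact h.not_RS h'.1
  · exact h.not_RS h'.2

theorem NI2.mir {w : X k} (h : NI2 w) : NI2 (Tsq.mirX w) := by
  have e : Tsq.mirX (Tsq.mirX w) = w := Subtype.ext (Tsq.mir_mir _)
  rcases h with h | h
  · right; rw [e]; exact h
  · exact Or.inl h

theorem NI2.not_mem {w : X k} (h : NI2 w) {B : Finset (X k)} (h' : ∀ v ∈ B, NRS v) : w ∉ B :=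
  fun hw => h.not (h' w hw)

theorem NI2.of_W {R B S : BinaryTree Unit} (hR : R ≠ .nil) (oR : (OddHC.cont R).count 1 = 0)
    (h3 : 3 ≤ OddHC.ht R) {i : ℕ} (hi : i ∈ [1, 3, 6, 8]) {x : X k} (e : x.1 = W R .nil B S i) :
    NI2 (TT x) := by
  rw [← H1.ht_eq] at h3
  exact Or.inl (inner_IS2 (Gd_of hR oR).1 h3 i hi e)

/-- words of right windows, `Q = ()` -/
theorem NRS.of_W {R B S : BinaryTree Unit} (hR : R ≠ .nil) (hS : S ≠ .nil)
    (oR : (OddHC.cont R).count 1 = 0) (oB : (OddHC.cont B).count 1 = 0)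
    (oS : (OddHC.cont S).count 1 = 0) {i : ℕ} (hi : i < 20) {w : X k}
    (e : w.1 = W R (.nil △ .nil) B S i ∨ w.1 = Tsq.mir (W R (.nil △ .nil) B S i)) : NRS w := by
  have gR := Gd_of hR oR
  have gS := Gd_of hS oS
  have gB : (B = .nil ∨ Gd B) ∧ (Tsq.mir B = .nil ∨ Gd (Tsq.mir B)) := by
    by_cases e : B = .nil
    · rw [e]; exact ⟨Or.inl rfl, Or.inl rfl⟩
    · exact ⟨Or.inr (Gd_of e oB).1, Or.inr (Gd_of e oB).2⟩
  have h1 := RS_W gR.1 gB.1 gS.1 hi
  have h2 := RS_mW gR.2 gB.2 gS.2 hi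
  unfold NRS
  rcases e with e | e
  · rw [e]; exact ⟨h1, h2⟩
  · rw [e, Tsq.mir_mir]; exact ⟨h2, h1⟩

/-- the data of a window with `c = 3` -/
theorem NRS.of_M (h : HM.NodeM k 0 R B S) (w0 : X k) {i : ℕ} (hi : i < 20) :
    NRS (H1.wX R B S 0 w0 i) := by
  have one : ∀ {t : BinaryTree Unit}, (∀ x ∈ OddHC.cont t, 3 ≤ x) → (OddHC.cont t).count 1 = 0 := by
    intro t ht
    rw [Multiset.count_eq_zero]
    intro hx
    have := ht 1 hx
    omega
  have hd := h.dat
  have hc : ∀ x, x ∈ OddHC.cont B + OddHC.cont S → x ∈ OddHC.cont R := by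
    let x : X R.numNodes := ⟨R, mem_treesOfNumNodesEq.2 rfl⟩
    have e1 : (TT (TT x)).1 = app (Tsq.sq R).2 (Tsq.sq R).1 := Tsq.TT_sq x h.ne
    have e2 : OddHC.cont (TT (TT x)).1 = OddHC.cont R := by
      rw [TT_apply, cont_TF, TT_apply, cont_TF]
    rw [e1, cont_app, h.sq] at e2
    intro x hx
    rw [← e2]
    exact hx
  have hS : S ≠ .nil := by
    have := Tsq.sq_ne h.ne
    rwa [h.sq] at this
  refine NRS.of_W (B := B) h.ne hS (one fun x hx => h.part x hx) (one fun x hx => ?_) (one fun x hx => ?_) hi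
    (Or.inl ?_)
  · exact h.part x (hc x (Multiset.mem_add.2 (Or.inl hx)))
  · exact h.part x (hc x (Multiset.mem_add.2 (Or.inr hx)))
  · rw [H1.wX_eq h.dat h.size w0 hi]
    rfl

/-- a word `((Y))` is not a word of a window with `Q = ()` -/
theorem par2_WQ {R B S Y : BinaryTree Unit} (hR : R ≠ .nil) (hS : S ≠ .nil) {i : ℕ}
    (hi : i < 20) : (Y △ .nil) △ .nil ≠ W R (.nil △ .nil) B S i := by
  intro e
  obtain ⟨u, R1, R2, rfl⟩ : ∃ u R1 R2, R = .node u R1 R2 := by
    cases R with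
    | nil => exact absurd rfl hR
    | node u A C => exact ⟨u, A, C, rfl⟩
  obtain ⟨v, S1, S2, rfl⟩ : ∃ u S1 S2, S = .node u S1 S2 := by
    cases S with
    | nil => exact absurd rfl hS
    | node u A C => exact ⟨u, A, C, rfl⟩
  have ne' : ∀ (P Q : BinaryTree Unit) (a : Unit) (Z : BinaryTree Unit),
      ¬ (BinaryTree.nil = app Z (.node a P Q)) := by
    intro P Q a Z h
    cases Z <;> simp [app] at h
  rcases B with _ | ⟨b, B1, B2⟩ <;> interval_cases i <;> simp [W, app, ne'] at e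

end SRun

open SRun H1 HM

variable {k s c : ℕ} {F F' : Set (Cyc k)} {g g' : DG k}

theorem TyR3.nrs (h : TyR3 F g) : ∀ w ∈ g.B, NRS w := by
  intro w hw
  obtain ⟨R, B, S, w0, i, h1, -, -, hi, rfl, -⟩ := h.words w hw
  exact NRS.of_M h1 w0 hi

theorem TyS3.nrs (h : TyS3 F g) : ∀ w ∈ g.B, NRS w := by
  intro w hw
  obtain ⟨R, B, S, w0, i, h1, -, hi, -, rfl, -⟩ := h.words w hw
  exact NRS.of_M h1 w0 hi

theorem TyJ3V.ni2 (h : TyJ3V F g) : ∀ p ∈ g.arcs, ∀ w ∈ innA p, NI2 w := by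
  obtain ⟨R, B, S, w0, h1, _, rfl, rfl⟩ := h
  intro q hq w hw
  have key : ∀ i j : ℕ, i ∈ [1, 3, 6, 8] → q = (J3.sX R B S w0 i, J3.sX R B S w0 j) → NI2 w := by
    rintro i j hi rfl
    have hw' : w = TT (J3.sX R B S w0 i) := hw
    rw [hw']
    have hi20 : i < 20 := by
      simp only [List.mem_cons, List.not_mem_nil, or_false] at hi
      omega
    exact NI2.of_W h1.ne h1.one h1.h3 hi (h1.word w0 hi20)
  have hp' : q = (J3.sX R B S w0 3, J3.sX R B S w0 12) ∨ q = (J3.sX R B S w0 6, J3.sX R B S w0 15) ∨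
      q = (J3.sX R B S w0 8, J3.sX R B S w0 14) := hq
  rcases hp' with e | e | e
  · exact key 3 12 (by simp) e
  · exact key 6 15 (by simp) e
  · exact key 8 14 (by simp) e

/-- **I-J3V-R3** -/
theorem TyJ3V.inner_R3 (h : TyJ3V F g) (h' : TyR3 F' g') : ∀ p ∈ g.arcs, ∀ w ∈ innA p, w ∉ g'.B :=
  fun p hp w hw => (h.ni2 p hp w hw).not_mem h'.nrs

/-- **I-J3V-S3** -/
theorem TyJ3V.inner_S3 (h : TyJ3V F g) (h' : TyS3 F' g') : ∀ p ∈ g.arcs, ∀ w ∈ innA p, w ∉ g'.B :=
  fun p hp w hw => (h.ni2 p hp w hw).not_mem h'.nrs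

namespace SRun

/-- the gadget J1a over `[s][c]`, all inner words, refined -/
theorem J1A.ni2 (hs : 3 ≤ s) (hc : 2 ≤ c) (hA : J.J1A s c g) : ∀ p ∈ g.arcs, ∀ w ∈ innA p,
    NI2 w ∨ ∃ x : X k, x.1 = (app (ch s) (ch c) △ .nil) △ .nil ∧ w = TT x := by
  intro p hp w hw
  obtain ⟨i, hi, hx⟩ := hA p hp
  have e : w = TT p.1 := hw
  subst e
  have c1 : (OddHC.cont (app (ch s) (ch c))).count 1 = 0 := by
    rw [cont_app, Multiset.count_add, count_ch (by omega), count_ch hc]
  have h3 : 3 ≤ OddHC.ht (app (ch s) (ch c)) := by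
    rw [ht_app, ch_ht]; omega
  by_cases h9 : i = 9
  · right
    subst h9
    exact ⟨p.1, hx, rfl⟩
  · left
    have hi' : i ∈ [1, 3, 6, 8] := by
      simp only [List.mem_cons, List.not_mem_nil, or_false] at hi ⊢
      omega
    exact NI2.of_W (app_ch_ne (by omega) _) c1 h3 hi' hx

/-- the mirrored gadget J1a over `[s][c]`, all inner words, refined -/
theorem J1MA.ni2 (hs : 3 ≤ s) (hc : 2 ≤ c) (hA : J.J1MA s c g) : ∀ p ∈ g.arcs,
    ∀ w ∈ innA p, NI2 w ∨ ∃ x : X k, x.1 = (app (ch s) (ch c) △ .nil) △ .nil ∧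
      w = Tsq.mirX (TT x) := by
  intro p hp w hw
  obtain ⟨h0, i, hi, hx⟩ := hA p hp
  have e : w = TT p.1 := hw
  have e2 : TT w = p.2 := by rw [e, h0]
  have e3 : TT (Tsq.mirX p.2) = Tsq.mirX w := by rw [← e2, Tsq.TT_mir]
  have e4 : w = Tsq.mirX (TT (Tsq.mirX p.2)) := by
    rw [e3]
    exact Subtype.ext (Tsq.mir_mir _).symm
  have c1 : (OddHC.cont (app (ch s) (ch c))).count 1 = 0 := by
    rw [cont_app, Multiset.count_add, count_ch (by omega), count_ch hc]
  have h3 : 3 ≤ OddHC.ht (app (ch s) (ch c)) := by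
    rw [ht_app, ch_ht]; omega
  by_cases h9 : i = 9
  · right
    subst h9
    exact ⟨Tsq.mirX p.2, hx, e4⟩
  · left
    have hi' : i ∈ [1, 3, 6, 8] := by
      simp only [List.mem_cons, List.not_mem_nil, or_false] at hi ⊢
      omega
    rw [e4]
    exact (NI2.of_W (x := Tsq.mirX p.2) (app_ch_ne (by omega) _) c1 h3 hi' hx).mir

theorem par2_M {R B S Y : BinaryTree Unit} (h : NodeM k 0 R B S) (w0 : X k) {i : ℕ}
    (hi : i < 20) {w : X k} (e : w.1 = (Y △ .nil) △ .nil) : w ≠ H1.wX R B S 0 w0 i := by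
  rintro rfl
  rw [H1.wX_eq h.dat h.size w0 hi] at e
  have hS : S ≠ .nil := by
    have := Tsq.sq_ne h.ne
    rwa [h.sq] at this
  exact par2_WQ h.ne hS hi e.symm

/-- the word `((Y))` is not in R3 or S3 -/
theorem not_R3S3 {Y : BinaryTree Unit} {w : X k} (e : w.1 = (Y △ .nil) △ .nil)
    (h' : TyR3 F' g' ∨ TyS3 F' g') : w ∉ g'.B := by
  intro hw
  rcases h' with h' | h'
  · obtain ⟨R, B, S, w0, i, h1, -, -, hi, e1, -⟩ := h'.words w hw
    exact par2_M h1 w0 hi e e1
  · obtain ⟨R, B, S, w0, i, h1, -, hi, -, e1, -⟩ := h'.words w hw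
    exact par2_M h1 w0 hi e e1

theorem R3S3.nrs (h' : TyR3 F' g' ∨ TyS3 F' g') : ∀ w ∈ g'.B, NRS w := by
  rcases h' with h' | h'
  · exact h'.nrs
  · exact h'.nrs

/-- **I-J1-R3, I-J1-S3**, right -/
theorem J1A.inner_R3S3 (hc : 2 ≤ c) (hs : c + 2 ≤ s) (hA : J.J1A s c g)
    (h' : TyR3 F' g' ∨ TyS3 F' g') : ∀ p ∈ g.arcs, ∀ w ∈ innA p, w ∉ g'.B := by
  intro p hp w hw
  rcases J1A.ni2 (by omega) hc hA p hp w hw with h | ⟨x, hx, rfl⟩
  · exact h.not_mem (R3S3.nrs h')
  · obtain ⟨m, rfl⟩ : ∃ m, s = m + 2 + c := ⟨s - c - 2, by omega⟩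
    exact not_R3S3 (TT_nine hx) h'

/-- **I-J1M-R3, I-J1M-S3**, mirrored -/
theorem J1MA.inner_R3S3 (hc : 2 ≤ c) (hs : c + 2 ≤ s) (hA : J.J1MA s c g)
    (h' : TyR3 F' g' ∨ TyS3 F' g') : ∀ p ∈ g.arcs, ∀ w ∈ innA p, w ∉ g'.B := by
  intro p hp w hw
  rcases J1MA.ni2 (by omega) hc hA p hp w hw with h | ⟨x, hx, rfl⟩
  · exact h.not_mem (R3S3.nrs h')
  · obtain ⟨m, rfl⟩ : ∃ m, s = m + 2 + c := ⟨s - c - 2, by omega⟩
    have e' : (Tsq.mirX (TT x)).1 = (prn m (app (ch (c + 2)) (ch c)) △ .nil) △ .nil := by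
      change Tsq.mir (TT x).1 = _
      rw [TT_nine hx]
      change Tsq.mir (prn (m + 2) (app (ch c) (ch (c + 2)))) = prn (m + 2) (app (ch (c + 2)) (ch c))
      rw [mir_prn, Tsq.mir_app, mir_ch, mir_ch]
    exact not_R3S3 e' h'

end SRun

end Pool.OddHC
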