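import Pool.Agent.Work.MP_8f87b2_h58.InA0
import Pool.Agent.Work.MP_8f87b2_h40.TyJM

/-!
# MP_8f87b2_co: words whose runs all have length at least 2, and the first run of length 1

`D2 l`: all runs of `l` have length at least 2. `sp p f l`: scan; it stops after a run of length 1. `SR`: first single run.
-/

set_option autoImplicit false

namespace Pool.OddHC

open Finset Equiv BinaryTree Pool.Agent.Work.MP_8f87b2_co

namespace SRun

/-- all runs have length at least `2` -/
inductive D2 : List Bool → Prop
  | nil : D2 []
  | two (c : Bool) (l : List Bool) : D2 l → D2 (c :: c :: l)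
  | three (c : Bool) (l : List Bool) : D2 l → D2 (c :: c :: c :: l)

theorem D2.app {l m : List Bool} (h : D2 l) (hm : D2 m) : D2 (l ++ m) := by
  induction h with
  | nil => exact hm
  | two c l _ ih => exact D2.two c _ ih
  | three c l _ ih => exact D2.three c _ ih

theorem D2.cons {c : Bool} {l : List Bool} (h : D2 (c :: l)) : D2 (c :: c :: l) := by
  cases h with
  | two _ l h => exact D2.three c l h
  | three _ l h => exact D2.two c _ (D2.two c l h)

theorem D2.eq {c d : Bool} {l : List Bool} (h : D2 (c :: d :: l)) : c = d := by
  cases h with
  | two _ l h => rfl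
  | three _ l h => rfl

theorem D2.not_one {c : Bool} (h : D2 [c]) : False := by
  cases h

theorem D2.mapnot {l : List Bool} (h : D2 l) : D2 (l.map not) := by
  induction h with
  | nil => exact D2.nil
  | two c l _ ih => exact D2.two (!c) _ ih
  | three c l _ ih => exact D2.three (!c) _ ih

/-- prolong the last run -/
theorem D2.snoc {l : List Bool} (h : D2 l) : ∀ {c : Bool} {m : List Bool}, l = m ++ [c] →
    D2 (l ++ [c]) := by
  induction h with
  | nil =>
    intro c m e
    exact absurd e (by simp)
  | two x l hl ih =>
    intro c m e
    cases l with
    | nil =>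
      have e1 : c = x := by
        rcases m with _ | ⟨a, m⟩
        · simp at e
        · rcases m with _ | ⟨b, m⟩
          · simp at e
            exact e.2.symm
          · simp at e
      subst e1
      exact D2.three c [] D2.nil
    | cons y l =>
      rcases m with _ | ⟨a, m⟩
      · simp at e
      · rcases m with _ | ⟨b, m⟩
        · simp at e
        · simp only [List.cons_append, List.cons.injEq] at e
          exact D2.two x _ (ih (m := m) e.2.2)
  | three x l hl ih =>
    intro c m e
    cases l with
    | nil =>
      have e1 : c = x := by
        rcases m with _ | ⟨a, m⟩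
        · simp at e
        · rcases m with _ | ⟨b, m⟩
          · simp at e
          · rcases m with _ | ⟨d, m⟩
            · simp at e
              exact e.2.2.symm
            · simp at e
      subst e1
      exact D2.two c _ (D2.two c [] D2.nil)
    | cons y l =>
      rcases m with _ | ⟨a, m⟩
      · simp at e
      · rcases m with _ | ⟨b, m⟩
        · simp at e
        · rcases m with _ | ⟨d, m⟩
          · simp at e
          · simp only [List.cons_append, List.cons.injEq] at e
            exact D2.three x _ (ih (m := m) e.2.2.2)

/-- cut between two runs -/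
theorem D2.cut {w : List Bool} (h : D2 w) : ∀ {u v : List Bool} {c d : Bool}, c ≠ d →
    w = u ++ c :: d :: v → D2 (u ++ [c]) ∧ D2 (d :: v) := by
  induction h with
  | nil =>
    intro u v c d _ e
    exact absurd e (by simp)
  | two x l hl ih =>
    intro u v c d hcd e
    rcases u with _ | ⟨a, u⟩
    · simp only [List.nil_append, List.cons.injEq] at e
      exact absurd (e.1.symm.trans e.2.1) hcd
    · rcases u with _ | ⟨b, u⟩
      · simp only [List.cons_append, List.nil_append, List.cons.injEq] at e
        obtain ⟨rfl, rfl, rfl⟩ := e
        exact ⟨D2.two _ [] D2.nil, hl⟩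
      · simp only [List.cons_append, List.cons.injEq] at e
        obtain ⟨rfl, rfl, e⟩ := e
        obtain ⟨h1, h2⟩ := ih hcd e
        exact ⟨D2.two _ _ h1, h2⟩
  | three x l hl ih =>
    intro u v c d hcd e
    rcases u with _ | ⟨a, u⟩
    · simp only [List.nil_append, List.cons.injEq] at e
      exact absurd (e.1.symm.trans e.2.1) hcd
    · rcases u with _ | ⟨b, u⟩
      · simp only [List.cons_append, List.nil_append, List.cons.injEq] at e
        exact absurd (e.2.1.symm.trans e.2.2.1) hcd
      · rcases u with _ | ⟨b', u⟩
        · simp only [List.cons_append, List.nil_append, List.cons.injEq] at e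
          obtain ⟨rfl, rfl, rfl, rfl⟩ := e
          exact ⟨D2.three _ [] D2.nil, hl⟩
        · simp only [List.cons_append, List.cons.injEq] at e
          obtain ⟨rfl, rfl, rfl, e⟩ := e
          obtain ⟨h1, h2⟩ := ih hcd e
          exact ⟨D2.three _ _ h1, h2⟩

/-- scan: `p` the previous letter, `f`: its run has length at least 2 -/
def sp : Bool → Bool → List Bool → ℕ
  | _, _, [] => 0
  | p, f, c :: l => if c = p then 1 + sp p true l else if f then 1 + sp c false l else 0

theorem sp_D2 {l : List Bool} (h : D2 l) : ∀ (p : Bool) (r : List Bool),
    sp p true (l ++ r) = l.length + sp (l.getLastD p) true r := by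
  induction h with
  | nil => intro p r; simp
  | two c l _ ih =>
    intro p r
    have h1 : sp p true (c :: c :: l ++ r) = 2 + sp c true (l ++ r) := by
      change (if c = p then 1 + sp p true (c :: (l ++ r)) else
        if true then 1 + sp c false (c :: (l ++ r)) else 0) = _
      by_cases hp : c = p
      · subst hp
        rw [if_pos rfl]
        change 1 + (if c = c then 1 + sp c true (l ++ r) else _) = _
        rw [if_pos rfl]
        omega
      · rw [if_neg hp, if_pos rfl]
        change 1 + (if c = c then 1 + sp c true (l ++ r) else _) = _
        rw [if_pos rfl]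
        omega
    rw [h1, ih, List.getLastD_cons, List.getLastD_cons]
    simp only [List.length_cons]
    omega
  | three c l _ ih =>
    intro p r
    have h1 : sp p true (c :: c :: c :: l ++ r) = 3 + sp c true (l ++ r) := by
      change (if c = p then 1 + sp p true (c :: c :: (l ++ r)) else
        if true then 1 + sp c false (c :: c :: (l ++ r)) else 0) = _
      by_cases hp : c = p
      · subst hp
        rw [if_pos rfl]
        change 1 + (if c = c then 1 + (if c = c then 1 + sp c true (l ++ r) else _) else _) = _
        rw [if_pos rfl, if_pos rfl]
        omega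
      · rw [if_neg hp, if_pos rfl]
        change 1 + (if c = c then 1 + (if c = c then 1 + sp c true (l ++ r) else _) else _) = _
        rw [if_pos rfl, if_pos rfl]
        omega
    rw [h1, ih, List.getLastD_cons, List.getLastD_cons, List.getLastD_cons]
    simp only [List.length_cons]
    omega

/-- the first run of length one is the letter `c` after `u` -/
structure SR (w u : List Bool) (c d : Bool) (r : List Bool) : Prop where
  eq : w = u ++ c :: d :: r
  d2 : D2 u
  last : u.getLastD false ≠ c
  ne : c ≠ d

theorem SR.pos {w u r : List Bool} {c d : Bool} (h : SR w u c d r) :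
    sp false true w = u.length + 1 := by
  rw [h.eq, sp_D2 h.d2]
  congr 1
  change (if c = u.getLastD false then _ else if true then 1 + sp c false (d :: r) else 0) = _
  rw [if_neg (fun e => h.last e.symm), if_pos rfl]
  change 1 + (if d = c then _ else if false then _ else 0) = 1
  rw [if_neg (fun e => h.ne e.symm)]
  simp

theorem SR.uniq {w u r u' r' : List Bool} {c d c' d' : Bool} (h : SR w u c d r)
    (h' : SR w u' c' d' r') : u = u' ∧ c = c' ∧ d = d' ∧ r = r' := by
  have e1 : u.length = u'.length := by
    have := h.pos.symm.trans h'.pos
    omega
  have e2 := h.eq.symm.trans h'.eq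
  obtain ⟨e3, e4⟩ := List.append_inj e2 e1
  rw [List.cons.injEq, List.cons.injEq] at e4
  exact ⟨e3, e4.1, e4.2.1, e4.2.2⟩

theorem SR.not_D2 {w u r : List Bool} {c d : Bool} (h : SR w u c d r) : ¬ D2 w := by
  intro hw
  have h1 := h.pos
  have h2 := sp_D2 hw false []
  rw [List.append_nil] at h2
  rw [h2, h.eq] at h1
  simp [sp] at h1

/-! ### Trees without 1-parts -/

/-- all parts at least 2 -/
theorem D2_hg {t : BinaryTree Unit} (h : H1.hg 2 t) : D2 (wd t) := by
  induction t with
  | nil => exact D2.nil
  | node _ A C ihA ihC =>
    have hC := ihC h.2
    change D2 (wd (A △ C))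
    rw [wd_node]
    rcases h.1 with rfl | ⟨h1, h2⟩
    · have e : wd (H1.ch (2 - 1)) = [true, false] := rfl
      rw [e]
      exact D2.two true _ (D2.two false _ hC)
    · have hA := ihA h2
      obtain ⟨v, hv⟩ := H1.hg_start (by norm_num) h2 h1
      obtain ⟨v', hv'⟩ := H1.hg_end (by norm_num) h2 h1
      have e1 : wd A = (v' ++ [false]) ++ [false] := by
        rw [hv']; simp [List.replicate]
      have h3 : D2 (wd A ++ [false]) := hA.snoc e1
      have h4 : D2 (true :: (wd A ++ [false])) := by
        rw [hv] at h3 ⊢
        simp only [List.replicate, List.cons_append, List.nil_append] at h3 ⊢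
        exact h3.cons
      have e2 : true :: (wd A ++ false :: wd C) = (true :: (wd A ++ [false])) ++ wd C := by simp
      rw [e2]
      exact h4.app hC

end SRun

end Pool.OddHC
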