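import Pool.Agent.Work.MP_8f87b2_h40.TyJM
import Pool.Agent.Work.MP_8f87b2_mid.Dis

/-!
# MP_8f87b2_co, matrix entry W-JM-JM

Two gadgets of the type `TyJM` with disjoint groups have no common word (`dj_JMJM`), no side condition.
-/

set_option autoImplicit false

namespace Pool.OddHC

open Finset Equiv BinaryTree Pool.Agent.Work.MP_8f87b2_co

namespace J

variable {k p t u q s v : ℕ} {D D' E E' : BinaryTree Unit}

/-- `R(())`, `(())R`, `(())^(t+1) (D') (())^u` -/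
def nw (a : ℕ) : Prop := a = 0 ∨ a = 4 ∨ a = 10

theorem nw0 : nw 0 := Or.inl rfl
theorem nw4 : nw 4 := Or.inr (Or.inl rfl)
theorem nw10 : nw 10 := Or.inr (Or.inr rfl)

theorem nw_of {i : ℕ} (h : i = 0 ∨ i = 4) : nw i := by
  rcases h with rfl | rfl
  · exact nw0
  · exact nw4

theorem ixp04 {j : ℕ} (hj : 10 ≤ j) (hj' : j < 20) (h : ixp j = 0 ∨ ixp j = 4) :
    (j = 10 ∧ ixp j = 4) ∨ (j = 13 ∧ ixp j = 0) := by
  interval_cases j <;> simp [ixp] at h ⊢

theorem word10 (h : Sh k p D t D' u) (w0 : X k) : (jX p D t D' u w0 10).1 = RR (t + 1) D' u := by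
  rw [h.word_hi w0 (by norm_num) (by norm_num), mw_10]

theorem word4 (h : Sh k p D t D' u) (w0 : X k) : (jX p D t D' u w0 4).1 = RR (p + 1) D t := by
  rw [h.word_lo w0 (by norm_num), pw_4]

theorem word0 (h : Sh k p D t D' u) (w0 : X k) : (jX p D t D' u w0 0).1 = RR p D (t + 1) := by
  rw [h.word_lo w0 (by norm_num), pw_0]

/-- a common word of the first block of one and of the second block of the other gadget -/
theorem cross_lohi (h : Sh k p D t D' u) (h' : Sh k q E s E' v) (w0 w0' : X k) {i j : ℕ}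
    (hi : i < 10) (hj : 10 ≤ j) (hj' : j < 20) (e : jX p D t D' u w0 i = jX q E s E' v w0' j) :
    ∃ a b, nw a ∧ nw b ∧ jX p D t D' u w0 a = jX q E s E' v w0' b := by
  have e1 := congrArg Subtype.val e
  rw [h.word_lo w0 hi, h'.word_hi w0' hj hj'] at e1
  rcases Nat.eq_zero_or_pos s with hs | hs
  · subst hs
    rw [mw_zero E' v hj hj'] at e1
    have key : RR p D t = RR 0 E' v →
        ∃ a b, nw a ∧ nw b ∧ jX p D t D' u w0 a = jX q E 0 E' v w0' b := by
      intro e2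
      obtain ⟨l1, l2, l3⟩ := RR_inj h.gD h'.gD' e2
      refine ⟨4, 10, nw4, nw10, Subtype.ext ?_⟩
      rw [word4 h, word10 h', l1, l2, l3]
    rcases pure_inj h.gD h'.gD' hi (ixp_lt j) e1 with ⟨_, h2⟩ | ⟨h1, h2⟩
    · exact key h2
    · rcases ixp04 hj hj' h2 with ⟨h3, _⟩ | ⟨h3, h4⟩
      · subst h3
        exact ⟨i, 10, nw_of h1, nw10, e⟩
      · rw [h4, pw_0] at e1
        rcases h1 with h1 | h1
        · rw [h1, pw_0] at e1
          obtain ⟨l1, l2, l3⟩ := RR_inj h.gD h'.gD' e1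
          refine key ?_
          rw [l1, l2, Nat.succ_injective l3]
        · rw [h1, pw_4] at e1
          obtain ⟨l1, _, _⟩ := RR_inj h.gD h'.gD' e1
          exact absurd l1 (by omega)
  · obtain ⟨h1, h2⟩ := mix_pure h'.gD' h.gD hs hj hj' hi e1.symm
    subst h1
    exact ⟨i, 10, nw_of h2, nw10, e⟩

/-- a common word of two gadgets: then they have a common word among the words 0, 4, 10 -/
theorem cross (h : Sh k p D t D' u) (h' : Sh k q E s E' v) (w0 w0' : X k) {i j : ℕ}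
    (hi : i < 20) (hj : j < 20) (e : jX p D t D' u w0 i = jX q E s E' v w0' j) :
    ∃ a b, nw a ∧ nw b ∧ jX p D t D' u w0 a = jX q E s E' v w0' b := by
  have e1 := congrArg Subtype.val e
  rcases lt_or_ge i 10 with hi1 | hi1 <;> rcases lt_or_ge j 10 with hj1 | hj1
  · rw [h.word_lo w0 hi1, h'.word_lo w0' hj1] at e1
    rcases pure_inj h.gD h'.gD hi1 hj1 e1 with ⟨_, h2⟩ | ⟨h1, h2⟩
    · obtain ⟨l1, l2, l3⟩ := RR_inj h.gD h'.gD h2
      refine ⟨0, 0, nw0, nw0, Subtype.ext ?_⟩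
      rw [word0 h, word0 h', l1, l2, l3]
    · exact ⟨i, j, nw_of h1, nw_of h2, e⟩
  · exact cross_lohi h h' w0 w0' hi1 hj1 hj e
  · obtain ⟨a, b, h1, h2, h3⟩ := cross_lohi h' h w0' w0 hj1 hi1 hi e.symm
    exact ⟨b, a, h2, h1, h3.symm⟩
  · rw [h.word_hi w0 hi1 hi, h'.word_hi w0' hj1 hj] at e1
    have fin : t = s → D' = E' → u = v →
        ∃ a b, nw a ∧ nw b ∧ jX p D t D' u w0 a = jX q E s E' v w0' b := by
      intro l1 l2 l3
      refine ⟨10, 10, nw10, nw10, Subtype.ext ?_⟩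
      rw [word10 h, word10 h', l1, l2, l3]
    rcases Nat.eq_zero_or_pos t with ht | ht <;> rcases Nat.eq_zero_or_pos s with hs | hs
    · subst ht hs
      rw [mw_zero D' u hi1 hi, mw_zero E' v hj1 hj] at e1
      rcases pure_inj h.gD' h'.gD' (ixp_lt i) (ixp_lt j) e1 with ⟨_, h2⟩ | ⟨h1, h2⟩
      · obtain ⟨_, l2, l3⟩ := RR_inj h.gD' h'.gD' h2
        exact fin rfl l2 l3
      · rcases ixp04 hi1 hi h1 with ⟨h3, h4⟩ | ⟨h3, h4⟩ <;>
          rcases ixp04 hj1 hj h2 with ⟨h5, h6⟩ | ⟨h5, h6⟩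
        · subst h3 h5
          exact ⟨10, 10, nw10, nw10, e⟩
        · rw [h4, h6, pw_4, pw_0] at e1
          obtain ⟨l1, _, _⟩ := RR_inj h.gD' h'.gD' e1
          exact absurd l1 (by omega)
        · rw [h4, h6, pw_4, pw_0] at e1
          obtain ⟨l1, _, _⟩ := RR_inj h.gD' h'.gD' e1
          exact absurd l1 (by omega)
        · rw [h4, h6, pw_0, pw_0] at e1
          obtain ⟨_, l2, l3⟩ := RR_inj h.gD' h'.gD' e1
          exact fin rfl l2 (Nat.succ_injective l3)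
    · subst ht
      rw [mw_zero D' u hi1 hi] at e1
      obtain ⟨h1, h2⟩ := mix_pure h'.gD' h.gD' hs hj1 hj (ixp_lt i) e1.symm
      rcases ixp04 hi1 hi h2 with ⟨h3, h4⟩ | ⟨h3, h4⟩
      · subst h1 h3
        exact ⟨10, 10, nw10, nw10, e⟩
      · subst h1
        rw [h4, pw_0, mw_10] at e1
        obtain ⟨l1, _, _⟩ := RR_inj h.gD' h'.gD' e1
        exact absurd l1 (by omega)
    · subst hs
      rw [mw_zero E' v hj1 hj] at e1
      obtain ⟨h1, h2⟩ := mix_pure h.gD' h'.gD' ht hi1 hi (ixp_lt j) e1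
      rcases ixp04 hj1 hj h2 with ⟨h3, h4⟩ | ⟨h3, h4⟩
      · subst h1 h3
        exact ⟨10, 10, nw10, nw10, e⟩
      · subst h1
        rw [h4, pw_0, mw_10] at e1
        obtain ⟨l1, _, _⟩ := RR_inj h.gD' h'.gD' e1
        exact absurd l1 (by omega)
    · obtain ⟨_, l1, l2⟩ := mix_inj h.gD' h'.gD' ht hs hi1 hi hj1 hj e1
      obtain ⟨_, l3, l4⟩ := RR_inj h.gD' h'.gD' l2
      exact fin l1 l3 l4

/-- the words 0, 4, 10 are on T-cycles of the group -/
theorem Sh.nw_mem (h : Sh k p D t D' u) (w0 : X k) {a : ℕ} (ha : nw a) :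
    cyc (jM p D t D' u w0 a) = cyc (jM p D t D' u w0 0) ∨
      cyc (jM p D t D' u w0 a) = cyc (jM p D t D' u w0 4) := by
  rcases ha with rfl | rfl | rfl
  · exact Or.inl rfl
  · exact Or.inr rfl
  · exact Or.inl (h.cyc10M w0)

end J

open J

/-- **W-JM-JM**: gadgets of type JM with disjoint groups have no common word -/
theorem dj_JMJM {k : ℕ} : Dj (TyJM (k := k)) (TyJM (k := k)) := by
  rintro F g F' g' ⟨p, D, t, D', u, w0, h, _, rfl, rfl⟩ ⟨q, E, s, E', v, w0', h', _, rfl, rfl⟩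
    hd w hw hw'
  obtain ⟨i, hi, _, e1⟩ := mem_gadJM.1 hw
  obtain ⟨j, hj, _, e2⟩ := mem_gadJM.1 hw'
  have e3 : jX p D t D' u w0 i = jX q E s E' v w0' j := mirX_inj (e1.trans e2.symm)
  obtain ⟨a, b, ha, hb, hab⟩ := cross h h' w0 w0' hi hj e3
  have e4 : jM p D t D' u w0 a = jM q E s E' v w0' b := by
    unfold jM
    rw [hab]
  refine hd (cyc (jM p D t D' u w0 a)) (h.nw_mem w0 ha) ?_
  rw [e4]
  exact h'.nw_mem w0' hb

end Pool.OddHC
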