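import Pool.Agent.Work.MP_8f87b2_h68.JMi

/-!
# MP_8f87b2_co: the shape `JS` for all words with `Q = nil`, right and mirrored

`JS_W`, `JS_mW`: `W R nil B S i`, `i < 20`, and its mirror image, for `R`, `S` nonempty without 1-parts, `B` nil or without 1-parts.
-/

set_option autoImplicit false
set_option linter.unusedSimpArgs false

namespace Pool.OddHC

open Finset Equiv BinaryTree Pool.Agent.Work.MP_8f87b2_co

namespace SRun

open H1 J

variable {R B S : BinaryTree Unit}

theorem JS.d2 {t : BinaryTree Unit} (h : Gd t) : JS (wd t) := Or.inl h.d2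

theorem JS.st {w l : List Bool} (e : w = true :: false :: l) : JS w :=
  Or.inr (Or.inl ⟨l, SR.mk0 e⟩)

theorem JS.one {w l : List Bool} (e : w = true :: true :: false :: true :: l) : JS w :=
  Or.inr (Or.inr (Or.inl ⟨l, by rw [e]; rfl, D2.two _ _ D2.nil, by simp, by simp⟩))

theorem JS.two {w u u' l : List Bool} (e : w = u ++ true :: false :: l) (h : D2 u)
    (hu : u = u' ++ [false]) (hl : l = [] ∨ l = [false] ∨ ∃ m, l = true :: m) : JS w :=
  Or.inr (Or.inr (Or.inr ⟨u, l, SR.mk' e h hu (by simp) (by simp), hl⟩))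

theorem Gd.oneR {X : BinaryTree Unit} (h : H1.hg 2 X) : Gd ((.nil △ .nil) △ X) :=
  ⟨hg_one h, by simp⟩

theorem Gd.appr {P Q : BinaryTree Unit} (hP : H1.hg 2 P) (hQ : Gd Q) : Gd (OddHC.app P Q) := by
  refine ⟨hg_app hP hQ.hg, ?_⟩
  cases P with
  | nil => exact hQ.ne
  | node _ _ _ => simp [OddHC.app]

/-- `X` or `(X)` etc. followed by `()` -/
theorem Gd.two_end (h : Gd R) : JS (wd (OddHC.app R (.nil △ .nil))) := by
  obtain ⟨v, hv⟩ := h.stop
  exact JS.two (l := []) (by rw [wd_app]; rfl) h.d2 hv (Or.inl rfl)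

/-- the second block, right -/
theorem JS_W2 (hB : B = .nil ∨ Gd B) (hS : Gd S) {i : ℕ} (h1 : 10 ≤ i) (h2 : i < 20) :
    JS (wd (W R .nil B S i)) := by
  obtain ⟨vS, hvS⟩ := hS.start
  obtain ⟨zS, hzS⟩ := hS.stop
  have hB2 : H1.hg 2 B := by
    rcases hB with rfl | h
    · trivial
    · exact h.hg
  interval_cases i
  · exact JS.d2 (Gd.appr hB2 (Gd.oneR hS.hg))
  · rcases hB with rfl | h
    · exact JS.st rfl
    · obtain ⟨v, hv⟩ := h.stop
      refine JS.two (l := true :: (false :: wd S)) ?_ h.d2 hv (Or.inr (Or.inr ⟨_, rfl⟩))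
      change wd (app B (.nil △ (.nil △ S))) = _
      rw [wd_app]; rfl
  · have h3 : Gd (S △ B) := hS.node hB2
    obtain ⟨v1, hv1⟩ := h3.stop
    refine JS.two (l := []) ?_ h3.d2 hv1 (Or.inl rfl)
    change wd (S △ app B (.nil △ .nil)) = _
    rw [wd_node, wd_node, wd_app]
    simp [wd]
  · rcases hB with rfl | h
    · exact JS.d2 (hS.app (C := (.nil △ .nil) △ .nil) (hg_one trivial))
    · obtain ⟨v, hv⟩ := h.stop
      refine JS.two (u := wd S ++ (true :: wd B)) (l := [false])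
        (u' := wd S ++ (true :: (v ++ [false]))) ?_ (hS.d2.app h.cons)
        (by rw [hv]; simp) (Or.inr (Or.inl rfl))
      change wd (app S (app B (.nil △ .nil) △ .nil)) = _
      rw [wd_app, wd_node, wd_app]
      simp [wd]
  · refine JS.one (l := true :: (vS ++ false :: wd B)) ?_
    change wd ((.nil △ S) △ B) = _
    rw [wd_node, wd_node, hvS]
    simp [wd]
  · exact JS.st rfl
  · rcases hB with rfl | h
    · refine JS.two (l := [true, false]) ?_ hS.d2 hzS (Or.inr (Or.inr ⟨_, rfl⟩))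
      change wd (app S (.nil △ (.nil △ .nil))) = _
      rw [wd_app]; rfl
    · have h3 : Gd (app S (B △ .nil)) := hS.app (h.node (C := .nil) trivial).hg
      obtain ⟨v1, hv1⟩ := h3.stop
      refine JS.two (l := []) ?_ h3.d2 hv1 (Or.inl rfl)
      change wd (app S (B △ (.nil △ .nil))) = _
      rw [wd_app, wd_app, wd_node, wd_node]
      simp [wd]
  · exact JS.d2 ((hS.node hB2).node (C := .nil) trivial)
  · exact JS.st rfl
  · rcases hB with rfl | h
    · refine JS.two (u := true :: wd S) (u' := true :: (zS ++ [false])) (l := [false]) ?_ hS.cons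
        (by rw [hzS]; simp) (Or.inr (Or.inl rfl))
      change wd (app S (.nil △ .nil) △ .nil) = _
      rw [wd_node, wd_app]
      simp [wd]
    · exact JS.d2 ((hS.app (h.node (C := .nil) trivial).hg).node (C := .nil) trivial)

theorem W_lo (R B S : BinaryTree Unit) {i : ℕ} (hi : i < 10) : W R .nil B S i = J.pw R i := by
  interval_cases i <;> rfl

/-- **all words, right** -/
theorem JS_W (hR : Gd R) (hB : B = .nil ∨ Gd B) (hS : Gd S) {i : ℕ} (hi : i < 20) :
    JS (wd (W R .nil B S i)) := by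
  rcases lt_or_ge i 10 with h1 | h1
  · rw [W_lo R B S h1]
    exact JS_pw hR h1
  · exact JS_W2 hB hS h1 hi

/-- the second block, mirrored -/
theorem JS_mW2 (hB : Tsq.mir B = .nil ∨ Gd (Tsq.mir B)) (hS : Gd (Tsq.mir S)) {i : ℕ} (h1 : 10 ≤ i)
    (h2 : i < 20) : JS (wd (Tsq.mir (W R .nil B S i))) := by
  have h0 : Tsq.mir BinaryTree.nil = BinaryTree.nil := rfl
  obtain ⟨vS, hvS⟩ := hS.start
  obtain ⟨zS, hzS⟩ := hS.stop
  have hB2 : H1.hg 2 (Tsq.mir B) := by
    rcases hB with h | h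
    · rw [h]; trivial
    · exact h.hg
  have sim : ∀ t, Tsq.mir (W R .nil B S i) = t → JS (wd t) → JS (wd (Tsq.mir (W R .nil B S i))) :=
    fun t e h => by rw [e]; exact h
  interval_cases i
  · refine sim (app (Tsq.mir S) ((.nil △ .nil) △ Tsq.mir B)) (by
      simp only [W, Tsq.mir_node, Tsq.mir_app, h0, app, app_nil', app_assoc']) ?_
    exact JS.d2 (hS.app (hg_one hB2))
  · refine sim (app (Tsq.mir S) (.nil △ (.nil △ Tsq.mir B))) (by
      simp only [W, Tsq.mir_node, Tsq.mir_app, h0, app, app_nil', app_assoc']) ?_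
    exact JS.two (l := true :: (false :: wd (Tsq.mir B))) (by rw [wd_app]; rfl) hS.d2 hzS
      (Or.inr (Or.inr ⟨_, rfl⟩))
  · refine sim (.nil △ app (Tsq.mir B) (Tsq.mir S △ .nil)) (by
      simp only [W, Tsq.mir_node, Tsq.mir_app, h0, app, app_nil', app_assoc']) ?_
    exact JS.st rfl
  · refine sim ((.nil △ Tsq.mir B) △ Tsq.mir S) (by
      simp only [W, Tsq.mir_node, Tsq.mir_app, h0, app, app_nil', app_assoc']) ?_
    rcases hB with h | h
    · rw [h]
      exact JS.d2 (Gd.oneR hS.hg)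
    · obtain ⟨v, hv⟩ := h.start
      refine JS.one (l := true :: (v ++ false :: wd (Tsq.mir S))) ?_
      rw [wd_node, wd_node, hv]
      simp [wd]
  · refine sim (app (Tsq.mir B) (app (Tsq.mir S) (.nil △ .nil) △ .nil)) (by
      simp only [W, Tsq.mir_node, Tsq.mir_app, h0, app, app_nil', app_assoc']) ?_
    refine JS.two (u := wd (Tsq.mir B) ++ (true :: wd (Tsq.mir S))) (l := [false])
      (u' := wd (Tsq.mir B) ++ (true :: (zS ++ [false]))) ?_ ((D2_hg hB2).app hS.cons)
      (by rw [hzS]; simp) (Or.inr (Or.inl rfl))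
    rw [wd_app, wd_node, wd_app]
    simp [wd]
  · refine sim (app (Tsq.mir B) (Tsq.mir S △ (.nil △ .nil))) (by
      simp only [W, Tsq.mir_node, Tsq.mir_app, h0, app, app_nil', app_assoc']) ?_
    have h3 : Gd (app (Tsq.mir B) (Tsq.mir S △ .nil)) := Gd.appr hB2 (hS.node (C := .nil) trivial)
    obtain ⟨v1, hv1⟩ := h3.stop
    refine JS.two (l := []) ?_ h3.d2 hv1 (Or.inl rfl)
    rw [wd_app, wd_app, wd_node, wd_node]
    simp [wd]
  · refine sim (.nil △ (Tsq.mir B △ Tsq.mir S)) (by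
      simp only [W, Tsq.mir_node, Tsq.mir_app, h0, app, app_nil', app_assoc']) ?_
    exact JS.st rfl
  · refine sim (app (Tsq.mir B) (Tsq.mir S △ .nil) △ .nil) (by
      simp only [W, Tsq.mir_node, Tsq.mir_app, h0, app, app_nil', app_assoc']) ?_
    exact JS.d2 ((Gd.appr hB2 (hS.node (C := .nil) trivial)).node (C := .nil) trivial)
  · refine sim (Tsq.mir B △ app (Tsq.mir S) (.nil △ .nil)) (by
      simp only [W, Tsq.mir_node, Tsq.mir_app, h0, app, app_nil', app_assoc']) ?_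
    rcases hB with h | h
    · rw [h]
      exact JS.st rfl
    · have h3 : Gd (Tsq.mir B △ Tsq.mir S) := h.node hS.hg
      obtain ⟨v1, hv1⟩ := h3.stop
      refine JS.two (l := []) ?_ h3.d2 hv1 (Or.inl rfl)
      rw [wd_node, wd_node, wd_app]
      simp [wd]
  · refine sim ((Tsq.mir B △ Tsq.mir S) △ .nil) (by
      simp only [W, Tsq.mir_node, Tsq.mir_app, h0, app, app_nil', app_assoc']) ?_
    rcases hB with h | h
    · rw [h]
      refine JS.one (l := true :: (vS ++ [false])) ?_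
      rw [wd_node, wd_node, hvS]
      simp [wd]
    · exact JS.d2 ((h.node hS.hg).node (C := .nil) trivial)

/-- **all words, mirrored** -/
theorem JS_mW (hR : Gd (Tsq.mir R)) (hB : Tsq.mir B = .nil ∨ Gd (Tsq.mir B)) (hS : Gd (Tsq.mir S))
    {i : ℕ} (hi : i < 20) : JS (wd (Tsq.mir (W R .nil B S i))) := by
  rcases lt_or_ge i 10 with h1 | h1
  · rw [W_lo R B S h1, J.mir_pw R h1]
    exact JS_pw hR (J.mx_lt i)
  · exact JS_mW2 hB hS h1 hi

theorem Gd_of {t : BinaryTree Unit} (h0 : t ≠ .nil) (h : (OddHC.cont t).count 1 = 0) :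
    Gd t ∧ Gd (Tsq.mir t) := by
  have key : ∀ t : BinaryTree Unit, t ≠ .nil → (OddHC.cont t).count 1 = 0 → Gd t := by
    intro t h0 h
    refine ⟨H1.hg_of_cont le_rfl ?_, h0⟩
    intro x hx
    have h1 := cont_pos _ x hx
    have h2 : x ≠ 1 := by
      rintro rfl
      exact (Multiset.count_eq_zero.1 h) hx
    omega
  refine ⟨key t h0 h, key _ ?_ (by rw [HM.cont_mir]; exact h)⟩
  intro e
  apply h0
  have e1 := congrArg Tsq.mir e
  rw [Tsq.mir_mir] at e1
  rw [e1]; rfl

end SRun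

open SRun J

variable {k : ℕ} {F F' : Set (Cyc k)} {g g' : DG k}

/-- the words of a gadget of type JM -/
theorem TyJM.js (h : TyJM F g) : ∀ w ∈ g.B, JS (wd w.1) ∧ JS (wd (Tsq.mir w.1)) := by
  obtain ⟨p, D, t, D', u, w0, h1, _, rfl, rfl⟩ := h
  intro w hw
  obtain ⟨n, hn, _, rfl⟩ := mem_gadJM.1 hw
  have c1 : (OddHC.cont (RR 0 D' u)).count 1 = 0 := by
    have := h1.one
    rw [← h1.cont, Multiset.count_add] at this
    omega
  have c2 : (OddHC.cont (b2 t)).count 1 = 0 := count_b2 t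
  have gR := Gd_of (RR_ne p D t) h1.one
  have gS := Gd_of (RR_ne 0 D' u) c1
  have gB : (b2 t = .nil ∨ Gd (b2 t)) ∧ (Tsq.mir (b2 t) = .nil ∨ Gd (Tsq.mir (b2 t))) := by
    by_cases e : b2 t = .nil
    · rw [e]; exact ⟨Or.inl rfl, Or.inl rfl⟩
    · exact ⟨Or.inr (Gd_of e c2).1, Or.inr (Gd_of e c2).2⟩
  have e1 : (jM p D t D' u w0 n).1 = Tsq.mir (H1.W (RR p D t) .nil (b2 t) (RR 0 D' u) n) :=
    h1.wordM w0 hn
  rw [e1, Tsq.mir_mir]
  exact ⟨JS_mW gR.2 gB.2 gS.2 hn, JS_W gR.1 gB.1 gS.1 hn⟩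

end Pool.OddHC
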