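import Pool.Agent.Work.MP_8f87b2_h54.JVmj
import Pool.Agent.Work.MP_8f87b2_h68.J1I

/-!
# MP_8f87b2_co: the inner words of JV, JVm against J3V: only the inner word 3, with the exact alternatives
-/

set_option autoImplicit false

namespace Pool.OddHC

open Finset Equiv BinaryTree Pool.Agent.Work.MP_8f87b2_co

variable {k : ℕ} {F F' : Set (Cyc k)} {g g' : DG k} {S R B S' : BinaryTree Unit}

open SRun

/-- the words of J3V without part 1 which can have the content of `((S))`, `h = ht S` -/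
inductive Hit3 (h : ℕ) (R B S' y : BinaryTree Unit) : Prop
  | w0 (hh : OddHC.ht R = h + 2) (e : y = app R ((.nil △ .nil) △ .nil))
  | w4 (hh : OddHC.ht R = h + 2) (e : y = (.nil △ .nil) △ R)
  | w10 (hh : OddHC.ht R = h + 2) (e : y = app B ((.nil △ .nil) △ S'))
  | w13 (hh : OddHC.ht R = h + 2) (hB : B = .nil) (e : y = app S' ((.nil △ .nil) △ .nil))
  | w17 (hh : OddHC.ht R = h) (e : y = (S' △ B) △ .nil)
  | w19 (hh : OddHC.ht R = h ∧ OddHC.ht B = h ∨ OddHC.ht R = h + 1 ∧ OddHC.ht B ≤ h)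
      (hB : B ≠ .nil) (e : y = app S' (B △ .nil) △ .nil)

theorem JVM.meet3 (h : J3.SqD k R B S') {i : ℕ} (hi : i < 20) (h9 : i ≠ 9) {y : X k}
    (e : y.1 = H1.W R .nil B S' i) (h3 : 3 ≤ OddHC.ht S) (h1 : (OddHC.cont S).count 1 = 0)
    (c0 : OddHC.cont y.1 = raise (raise (OddHC.cont S))) : Hit3 (OddHC.ht S) R B S' y.1 := by
  have c1 := JVM.one3 h3 h1 c0
  have hh : OddHC.ht y.1 = OddHC.ht S + 2 := by
    rw [ht_eq, c0, sup_raise, sup_raise, ← ht_eq]
  have n0 : OddHC.ht (.nil : BinaryTree Unit) = 0 := rfl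
  have hS := h.htS
  have hB := h.htB
  have hR3 := h.h3
  have bead : ∀ P Z : BinaryTree Unit, 1 ∈ OddHC.cont (app P (.nil △ Z)) := by
    intro P Z
    rw [cont_app, cont_node, cont_nil, raise_zero]
    exact Multiset.mem_add.2 (Or.inr (Multiset.mem_add.2 (Or.inl (by simp))))
  have bead' : ∀ Z : BinaryTree Unit, 1 ∈ OddHC.cont (.nil △ Z) := fun Z => bead .nil Z
  have up : ∀ Z C : BinaryTree Unit, 1 ∈ OddHC.cont Z → 2 ≤ OddHC.ht Z →
      1 ∈ OddHC.cont (Z △ C) := by
    intro Z C h5 h6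
    rw [cont_node]
    rw [ht_eq] at h6
    refine Multiset.mem_add.2 (Or.inl ?_)
    rw [← Multiset.count_pos, count_raise 1 (by omega) (by omega)]
    exact Multiset.count_pos.2 h5
  have no : ∀ {t : BinaryTree Unit}, y.1 = t → 1 ∉ OddHC.cont t := by
    rintro t rfl
    exact Multiset.count_eq_zero.1 c1
  have k0 : ∀ {t : BinaryTree Unit}, y.1 = t → OddHC.ht t = OddHC.ht S + 2 := by
    rintro t rfl
    exact hh
  have hl : ∀ T : BinaryTree Unit, 1 ≤ OddHC.ht T → 2 ≤ OddHC.ht ((.nil : BinaryTree Unit) △ T) ∨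
      OddHC.ht T = 1 := by
    intro T hT
    rw [ht_node, n0]
    omega
  interval_cases i
  · have e' : y.1 = app R ((.nil △ .nil) △ .nil) := e
    have := k0 e'
    rw [ht_app, ht_node, ht_node, n0] at this
    exact .w0 (by omega) e'
  · exact absurd (bead _ _) (no (t := app R (.nil △ (.nil △ .nil))) e)
  · exact absurd (bead' _) (no (t := .nil △ app R (.nil △ .nil)) e)
  · refine absurd (up _ _ (bead R .nil) ?_) (no (t := app R (.nil △ .nil) △ .nil) e)
    rw [ht_app]
    omega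
  · have e' : y.1 = (.nil △ .nil) △ R := e
    have := k0 e'
    rw [ht_node, ht_node, n0] at this
    exact .w4 (by omega) e'
  · exact absurd (bead' _) (no (t := .nil △ (.nil △ R)) e)
  · refine absurd ?_ (no (t := R △ (.nil △ .nil)) e)
    rw [cont_node]
    exact Multiset.mem_add.2 (Or.inr (bead' _))
  · refine absurd (up _ _ (bead' R) ?_) (no (t := (.nil △ R) △ .nil) e)
    rw [ht_node, n0]
    omega
  · exact absurd (bead' _) (no (t := .nil △ (R △ .nil)) e)
  · exact absurd rfl h9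
  · have e' : y.1 = app B ((.nil △ .nil) △ S') := e
    have := k0 e'
    rw [ht_app, ht_node, ht_node, n0] at this
    exact .w10 (by omega) e'
  · exact absurd (bead _ _) (no (t := app B (.nil △ (.nil △ S'))) e)
  · refine absurd ?_ (no (t := S' △ app B (.nil △ .nil)) e)
    rw [cont_node]
    exact Multiset.mem_add.2 (Or.inr (bead _ _))
  · by_cases h0 : B = .nil
    · subst h0
      have e' : y.1 = app S' ((.nil △ .nil) △ .nil) := e
      have := k0 e'
      rw [ht_app, ht_node, ht_node, n0] at this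
      exact .w13 (by omega) rfl e'
    · refine absurd ?_ (no (t := app S' (app B (.nil △ .nil) △ .nil)) e)
      rw [cont_app]
      refine Multiset.mem_add.2 (Or.inr (up _ _ (bead _ _) ?_))
      have hB2 : 2 ≤ OddHC.ht B := by
        have c2 := h.oneB
        have c3 : OddHC.ht B ∈ OddHC.cont B := by
          rw [OddHC.ht_eq]
          exact sup_mem fun e0 => h0 (cont_eq_zero.1 e0)
        have c4 := cont_pos _ _ c3
        by_contra hc
        have c5 : OddHC.ht B = 1 := by omega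
        rw [c5] at c3
        exact (Multiset.count_eq_zero.1 c2) c3
      rw [ht_app]
      omega
  · refine absurd (up _ _ (bead' S') ?_) (no (t := (.nil △ S') △ B) e)
    rw [ht_node, n0]
    omega
  · exact absurd (bead' _) (no (t := .nil △ (S' △ B)) e)
  · refine absurd ?_ (no (t := app S' (B △ (.nil △ .nil))) e)
    rw [cont_app, cont_node]
    exact Multiset.mem_add.2 (Or.inr (Multiset.mem_add.2 (Or.inr (bead' _))))
  · have e' : y.1 = (S' △ B) △ .nil := e
    have := k0 e'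
    rw [ht_node, ht_node, n0] at this
    exact .w17 (by omega) e'
  · exact absurd (bead' _) (no (t := .nil △ app S' (B △ .nil)) e)
  · by_cases h0 : B = .nil
    · subst h0
      refine absurd (up _ _ (bead S' .nil) ?_) (no (t := app S' (.nil △ .nil) △ .nil) e)
      rw [ht_app]
      omega
    · have e' : y.1 = app S' (B △ .nil) △ .nil := e
      have := k0 e'
      rw [ht_node, ht_app, ht_node, n0] at this
      exact .w19 (by omega) h0 e'

/-- **I-JVm-J3V**: the only possible hits, general `S` -/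
theorem Is9M.hit_J3V (h : Is9M .nil .nil S F g) (h3 : 3 ≤ OddHC.ht S)
    (h1 : (OddHC.cont S).count 1 = 0) (h' : TyJ3V F' g') :
    ∀ p ∈ g.arcs, ∀ w ∈ innA p, w ∈ g'.B → Iv S 3 w ∧ ∃ (R B S' : BinaryTree Unit) (w0 : X k),
      J3.SqD k R B S' ∧ J3.J3OK R B S' w0 ∧
      F' = {cyc (J3.sX R B S' w0 0), cyc (J3.sX R B S' w0 1), cyc (J3.sX R B S' w0 2)} ∧
      g' = gadS (J3.sX R B S' w0) ∧ Hit3 (OddHC.ht S) R B S' w.1 := by
  intro p hp w hw hB
  rcases JVM.nis3 h h3 h1 p hp w hw with h4 | h4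
  · exact absurd hB (h4.not_mem h'.njs)
  · refine ⟨h4, ?_⟩
    obtain ⟨R, B, S', w0, h5, hp', rfl, rfl⟩ := h'
    refine ⟨R, B, S', w0, h5, hp', rfl, rfl, ?_⟩
    obtain ⟨i, hi, h9, rfl⟩ := mem_gadS.1 hB
    exact JVM.meet3 h5 hi h9 (h5.word w0 hi) h3 h1 (JVM.cont3 h4)

/-- **I-JV-J3V**: the only possible hits, general `S` -/
theorem Is9.hit_J3V (h : Is9 .nil .nil S F g) (h3 : 3 ≤ OddHC.ht S)
    (h1 : (OddHC.cont S).count 1 = 0) (h' : TyJ3V F' g') :
    ∀ p ∈ g.arcs, ∀ w ∈ innA p, w ∈ g'.B → w = TT p.1 ∧ p.1.1 = (S △ .nil) △ .nil ∧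
      ∃ (R B S' : BinaryTree Unit) (w0 : X k), J3.SqD k R B S' ∧ J3.J3OK R B S' w0 ∧
      F' = {cyc (J3.sX R B S' w0 0), cyc (J3.sX R B S' w0 1), cyc (J3.sX R B S' w0 2)} ∧
      g' = gadS (J3.sX R B S' w0) ∧ Hit3 (OddHC.ht S) R B S' w.1 := by
  intro p hp w hw hB
  rcases h.nis h3 h1 p hp w hw with h4 | ⟨_, e, hx⟩
  · exact absurd hB (h4.not_mem h'.njs)
  · refine ⟨e, hx, ?_⟩
    obtain ⟨R, B, S', w0, h5, hp', rfl, rfl⟩ := h'
    refine ⟨R, B, S', w0, h5, hp', rfl, rfl, ?_⟩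
    obtain ⟨i, hi, h9, rfl⟩ := mem_gadS.1 hB
    refine JVM.meet3 h5 hi h9 (h5.word w0 hi) h3 h1 ?_
    rw [e]
    exact JV.cont3 hx

end Pool.OddHC
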